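import Pool.Agent.H669Z.Hech.Defs

/-!
# Selection principles, and the sentences of the forcing language which are used
-/

set_option autoImplicit false

namespace Pool.Agent.H669Z.Gam

open Pool.Agent.Helper292.ForceCH Pool.Agent.H669Z.Hech

section

variable {X : Type} [TopologicalSpace X]

/-- A family of open sets with union `X` which does not contain `X`. -/
def IsOpenCover (U : Set (Set X)) : Prop :=
  (∀ u ∈ U, IsOpen u) ∧ ⋃₀ U = Set.univ ∧ Set.univ ∉ U

def IsOmegaCover (U : Set (Set X)) : Prop :=
  IsOpenCover U ∧ ∀ F : Set X, F.Finite → ∃ u ∈ U, F ⊆ u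

def IsGammaCover (U : Set (Set X)) : Prop :=
  IsOpenCover U ∧ U.Infinite ∧ ∀ x, {u ∈ U | x ∉ u}.Finite

variable (X)

def GammaProperty : Prop := ∀ U : Set (Set X), IsOmegaCover U → ∃ V ⊆ U, IsGammaCover V

def S1GammaO : Prop := ∀ U : ℕ → Set (Set X), (∀ n, IsGammaCover (U n)) →
  ∃ u : ℕ → Set X, (∀ n, u n ∈ U n) ∧ ⋃ n, u n = Set.univ

end

/-- Some member of the list `c` is an initial segment of `y`. -/
def InCl (c : List (List Bool)) (y : ℕ → Bool) : Prop :=
  ∃ s : List Bool, s ∈ c ∧ ∀ m : Fin s.length, y m = s.get m

/-- No family of functions indexed by `O` is dominating. -/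
def NotDom (O : Type) : Prop := ∀ f : O → ℕ → ℕ, ∃ g : ℕ → ℕ, ∀ a, ¬ LeStar g (f a)

/-- There are functions `a γ` and points `y i` of the Cantor space such that every point is read
off some `y i` along the graph of some `a γ`, and every family of clopen sets which covers each
finite set of the points `y i` by one member has a sequence which eventually covers each. -/
def Wit (O I : Type) : Prop :=
  ∃ (a : O → ℕ → ℕ) (y : I → ℕ → Bool),
    (∀ w : ℕ → Bool, ∃ γ i, ∀ n, y i (Nat.pair n (a γ n)) = w n) ∧
    ∀ C : Set (List (List Bool)), (∀ F : List I, ∃ c, c ∈ C ∧ ∀ i ∈ F, InCl c (y i)) →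
      ∃ g : ℕ → List (List Bool), ∀ i, ∃ m, ∀ t, m ≤ t → g t ∈ C ∧ InCl (g t) (y i)

variable {P : Type} [Preorder P]

/-- The sentence `InCl c y` for a name `y`. -/
def FInCl (c : List (List Bool)) (y : ℕ → Bool → Set P) : Set P :=
  fex fun s : List Bool => fand (fground (s ∈ c))
    (fall fun m : Fin s.length => meets (y m (s.get m)))

variable (P)

/-- The sentence `NotDom O`. -/
def FNotDom (O : Type) : Set P :=
  fall fun f : O → ℕ → ℕ → Set P => fimp (fall fun a => IsFun (f a))
    (fex fun g : ℕ → ℕ → Set P => fand (IsFun g) (fall fun a => fnot (FLeStar g (f a))))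

/-- The sentence `Wit O I`. -/
def FWit (O I : Type) : Set P :=
  fex fun a : O → ℕ → ℕ → Set P => fex fun y : I → ℕ → Bool → Set P =>
    fand (fand (fall fun γ => IsFun (a γ)) (fall fun i => IsFun (y i)))
    (fand
      (fall fun w : ℕ → Bool → Set P => fimp (IsFun w) (fex fun γ => fex fun i =>
        fall fun n => fall fun k => fall fun b =>
          fimp (fand (meets (a γ n k)) (meets (w n b))) (meets (y i (Nat.pair n k) b))))
      (fall fun C : List (List Bool) → Set P => fimp
        (fall fun F : List I => fex fun c => fand (meets (C c))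
          (fall fun i => fimp (fground (i ∈ F)) (FInCl c (y i))))
        (fex fun g : ℕ → List (List Bool) → Set P => fand (IsFun g)
          (fall fun i => fex fun m => fall fun t => fall fun c =>
            fimp (fand (fground (m ≤ t)) (meets (g t c)))
              (fand (meets (C c)) (FInCl c (y i)))))))

end Pool.Agent.H669Z.Gam
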