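import Pool.Agent.H669Z.Hech.Poset

/-!
# Finite support iterations of Mathias type forcings with semantic conditions

Coordinates `j : J` carry a rank in a linear order. A condition is a finite family of stems and
promises; it is identified with the set of points of `J → ℕ → ℕ` which obey it.
-/

set_option autoImplicit false

namespace Pool.Agent.H669Z.Gam

open Pool.Agent.H669Z.Hech (Pt Dep exists_agree)

variable {J L : Type}

structure Raw (J : Type) where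
  n : J → ℕ
  f : J → ℕ → ℕ
  A : J → Pt J → Set ℕ

def Raw.At (p : Raw J) (j : J) (x : Pt J) : Prop :=
  (∀ m < p.n j, x j m = p.f j m) ∧ ∀ m, p.n j ≤ m → (p.A j x).Nonempty → x j m ∈ p.A j x

def Raw.ext (p : Raw J) : Set (Pt J) := {x | ∀ j, p.At j x}

def Raw.supp (p : Raw J) : Set J := {j | p.n j ≠ 0 ∨ p.A j ≠ fun _ => Set.univ}

theorem At_of_not_supp {p : Raw J} {j : J} (h : j ∉ p.supp) (x : Pt J) : p.At j x := by
  simp only [Raw.supp, Set.mem_ofPred_eq, not_or, not_not] at h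
  refine ⟨fun m hm => ?_, fun m _ _ => ?_⟩
  · omega
  · rw [h.2]; trivial

theorem At_of_eq {p q : Raw J} {j : J} (h1 : q.n j = p.n j) (h2 : q.f j = p.f j)
    (h3 : q.A j = p.A j) (x : Pt J) : q.At j x ↔ p.At j x := by
  unfold Raw.At
  rw [h1, h2, h3]

variable [LinearOrder L]

def GoodF (rk : J → L) (Prom : J → (Pt J → Set ℕ) → Prop) (l : L) (p : Raw J) : Prop :=
  p.supp.Finite ∧ ∀ j ∈ p.supp, rk j < l ∧ Prom j (p.A j)

def Cert (rk : J → L) (G : Raw J → Prop) (j : J) (A : Pt J → Set ℕ) : Prop :=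
  (∃ T : Set J, T.Countable ∧ (∀ i ∈ T, rk i < rk j) ∧
    ∀ x y : Pt J, (∀ i ∈ T, x i = y i) → A x = A y) ∧
  (∀ v p, G p → ∃ q, G q ∧ q.ext ⊆ p.ext ∧ ((∀ x ∈ q.ext, v ∈ A x) ∨ ∀ x ∈ q.ext, v ∉ A x)) ∧
  ∀ p, G p → ∃ q, G q ∧ q.ext ⊆ p.ext ∧ ∃ v, ∀ x ∈ q.ext, v ∈ A x

def AdmF (rk : J → L) (G : Raw J → Prop) (l : L) (F : Pt J → ℕ → ℕ) : Prop :=
  (∃ T : Set J, T.Countable ∧ (∀ j ∈ T, rk j < l) ∧ Dep F T) ∧
    ∀ (m : ℕ) (p : Raw J), G p → ∃ q, G q ∧ q.ext ⊆ p.ext ∧ ∃ k, ∀ x ∈ q.ext, F x m = k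

structure Sys (J L : Type) [LinearOrder L] where
  rk : J → L
  Prom : J → (Pt J → Set ℕ) → Prop
  univ : ∀ j, Prom j fun _ => Set.univ
  inter : ∀ j A A', Prom j A → Prom j A' → Prom j fun x => A x ∩ A' x
  cert : ∀ j A, Prom j A → Cert rk (GoodF rk Prom (rk j)) j A

variable (S : Sys J L)

def Sys.Good (l : L) (p : Raw J) : Prop := GoodF S.rk S.Prom l p

def Sys.Adm (l : L) (F : Pt J → ℕ → ℕ) : Prop := AdmF S.rk (S.Good l) l F

/-- conditions -/
def Cond : Type := {p : Raw J // p.supp.Finite ∧ ∀ j, S.Prom j (p.A j)}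

instance : Preorder (Cond S) where
  le q p := q.1.ext ⊆ p.1.ext
  le_refl _ := subset_rfl
  le_trans _ _ _ h1 h2 := h1.trans h2

variable {S}

theorem Sys.Adm.congr {l : L} {F : Pt J → ℕ → ℕ} (h : S.Adm l F) {x y : Pt J}
    (hxy : ∀ j, S.rk j < l → x j = y j) : F x = F y := by
  obtain ⟨T, -, h1, h2⟩ := h.1
  exact h2 x y fun j hj => hxy j (h1 j hj)

theorem prom_congr {j : J} {A : Pt J → Set ℕ} (h : S.Prom j A) {x y : Pt J}
    (hxy : ∀ i, S.rk i < S.rk j → x i = y i) : A x = A y := by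
  obtain ⟨T, -, h1, h2⟩ := (S.cert j A h).1
  exact h2 x y fun j hj => hxy j (h1 j hj)

def top : Cond S := ⟨⟨0, 0, fun _ _ => Set.univ⟩, by simp [Raw.supp], fun _ => S.univ _⟩

theorem top_supp (j : J) : j ∉ (top : Cond S).1.supp := by simp [top, Raw.supp]

theorem top_At (j : J) (x : Pt J) : (top : Cond S).1.At j x := At_of_not_supp (top_supp j) x

theorem le_top' (p : Cond S) : p ≤ top := fun x _ j => top_At j x

def ofGood {l : L} (p : Raw J) (h : S.Good l p) : Cond S :=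
  ⟨p, h.1, fun j => by
    by_cases hj : j ∈ p.supp
    · exact (h.2 j hj).2
    · simp only [Raw.supp, Set.mem_ofPred_eq, not_or, not_not] at hj
      rw [hj.2]; exact S.univ _⟩

def Lv (l : L) (p : Cond S) : Prop := ∀ j ∈ p.1.supp, S.rk j < l

theorem Lv.good {l : L} {p : Cond S} (h : Lv l p) : S.Good l p.1 :=
  ⟨p.2.1, fun j hj => ⟨h j hj, p.2.2 j⟩⟩

theorem lv_ofGood {l : L} {p : Raw J} (h : S.Good l p) : Lv l (ofGood p h) :=
  fun j hj => (h.2 j hj).1

theorem At_congr (p : Cond S) {j : J} {x y : Pt J} (h1 : ∀ i, S.rk i < S.rk j → x i = y i)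
    (h2 : x j = y j) (h : p.1.At j x) : p.1.At j y := by
  unfold Raw.At at h ⊢
  rw [← h2, ← prom_congr (p.2.2 j) h1]
  exact h

theorem ext_point (p : Cond S) (D : Finset J) (y : Pt J) :
    ∃ x : Pt J, (∀ j ∉ D, x j = y j) ∧ ∀ j ∈ D, p.1.At j x := by
  classical
  induction D using Finset.induction_on_max_value S.rk with
  | empty => exact ⟨y, fun _ _ => rfl, by simp⟩
  | insert a s ha hmax ih =>
    obtain ⟨x, hx1, hx2⟩ := ih
    let x' : Pt J := Function.update x a fun m =>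
      if m < p.1.n a then p.1.f a m else sInf (p.1.A a x)
    have hne : ∀ j, j ≠ a → x' j = x j := fun j hj => Function.update_of_ne hj _ _
    refine ⟨x', fun j hj => ?_, fun j hj => ?_⟩
    · rw [Finset.mem_insert, not_or] at hj
      rw [hne j hj.1, hx1 j hj.2]
    · rcases Finset.mem_insert.1 hj with rfl | hj'
      · have hF : p.1.A j x' = p.1.A j x :=
          prom_congr (p.2.2 j) fun i hi => hne i (by rintro rfl; exact lt_irrefl _ hi)
        refine ⟨fun m hm => ?_, fun m hm => ?_⟩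
        · simp [x', hm]
        · rw [hF]
          intro h
          simpa [x', not_lt.2 hm] using Nat.sInf_mem h
      · refine At_congr p (fun i hi => (hne i ?_).symm) (hne j ?_).symm (hx2 j hj')
        · rintro rfl
          exact absurd (hmax j hj') (not_le.2 hi)
        · rintro rfl
          exact ha hj'

theorem ext_agree (p : Cond S) (l : L) (y : Pt J) (hy : ∀ j, S.rk j < l → p.1.At j y) :
    ∃ x ∈ p.1.ext, ∀ j, S.rk j < l → x j = y j := by
  classical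
  obtain ⟨x, hx1, hx2⟩ := ext_point p (p.2.1.toFinset.filter fun j => ¬ S.rk j < l) y
  have h1 : ∀ j, S.rk j < l → x j = y j := fun j hj => hx1 j (by simp [hj])
  refine ⟨x, fun j => ?_, h1⟩
  by_cases hj : S.rk j < l
  · exact At_congr p (fun i hi => (h1 i (hi.trans hj)).symm) (h1 j hj).symm (hy j hj)
  · by_cases hs : j ∈ p.1.supp
    · exact hx2 j (by simp [hs, not_lt.1 hj])
    · exact At_of_not_supp hs x

theorem ext_nonempty (p : Cond S) : p.1.ext.Nonempty := by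
  classical
  obtain ⟨x, -, hx⟩ := ext_point p p.2.1.toFinset 0
  refine ⟨x, fun j => ?_⟩
  by_cases hs : j ∈ p.1.supp
  · exact hx j (by simp [hs])
  · exact At_of_not_supp hs x

/-- `q` below the level `l` and `p` from it on -/
def am (l : L) (q p : Cond S) : Cond S :=
  ⟨⟨fun j => if S.rk j < l then q.1.n j else p.1.n j,
    fun j => if S.rk j < l then q.1.f j else p.1.f j,
    fun j => if S.rk j < l then q.1.A j else p.1.A j⟩,
    (q.2.1.union p.2.1).subset fun j hj => by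
      by_cases h : S.rk j < l
      · left; simpa [Raw.supp, h] using hj
      · right; simpa [Raw.supp, h] using hj,
    fun j => by
      by_cases h : S.rk j < l
      · simpa [h] using q.2.2 j
      · simpa [h] using p.2.2 j⟩

theorem am_lt {l : L} {q p : Cond S} {j : J} (h : S.rk j < l) (x : Pt J) :
    (am l q p).1.At j x ↔ q.1.At j x :=
  At_of_eq (by simp [am, h]) (by simp [am, h]) (by simp [am, h]) x

theorem am_ge {l : L} {q p : Cond S} {j : J} (h : ¬ S.rk j < l) (x : Pt J) :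
    (am l q p).1.At j x ↔ p.1.At j x :=
  At_of_eq (by simp [am, h]) (by simp [am, h]) (by simp [am, h]) x

def res (l : L) (p : Cond S) : Cond S := am l p top

theorem res_lv (l : L) (p : Cond S) : Lv l (res l p) := by
  intro j hj
  by_contra h
  simp [res, am, Raw.supp, h, top] at hj

theorem mem_res {l : L} {p : Cond S} {x : Pt J} :
    x ∈ (res l p).1.ext ↔ ∀ j, S.rk j < l → p.1.At j x := by
  constructor
  · intro h j hj
    exact (am_lt hj x).1 (h j)
  · intro h j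
    by_cases hj : S.rk j < l
    · exact (am_lt hj x).2 (h j hj)
    · exact (am_ge hj x).2 (top_At j x)

theorem mem_lv {l : L} {p : Cond S} (hp : Lv l p) {x : Pt J}
    (h : ∀ j, S.rk j < l → p.1.At j x) : x ∈ p.1.ext := by
  intro j
  by_cases hs : j ∈ p.1.supp
  · exact h j (hp j hs)
  · exact At_of_not_supp hs x

theorem res_prop {l : L} {q : Cond S} {Q : Pt J → Prop} (h : ∀ x ∈ q.1.ext, Q x)
    (hQ : ∀ x y : Pt J, (∀ j, S.rk j < l → x j = y j) → Q x → Q y) :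
    ∀ x ∈ (res l q).1.ext, Q x := by
  intro y hy
  obtain ⟨x, hx, hxy⟩ := ext_agree q l y (mem_res.1 hy)
  exact hQ x y hxy (h x hx)

theorem lv_congr {l : L} {p : Cond S} (hp : Lv l p) (x y : Pt J)
    (hxy : ∀ j, S.rk j < l → x j = y j) (h : x ∈ p.1.ext) : y ∈ p.1.ext :=
  mem_lv hp fun j hj => At_congr p (fun i hi => hxy i (hi.trans hj)) (hxy j hj) (h j)

theorem res_le {l : L} {p q : Cond S} (hp : Lv l p) (h : q ≤ p) : res l q ≤ p :=
  res_prop (Q := fun x => x ∈ p.1.ext) h (lv_congr hp)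

theorem le_res (l : L) (p : Cond S) : p ≤ res l p := fun _ hx => mem_res.2 fun j _ => hx j

/-- `q` and `p` have the same data from the level `l` on -/
def Same (l : L) (q p : Cond S) : Prop :=
  ∀ j, l ≤ S.rk j → q.1.n j = p.1.n j ∧ q.1.f j = p.1.f j ∧ q.1.A j = p.1.A j

theorem lift {l : L} (p q : Cond S) (hq : Lv l q) (h : q ≤ res l p) :
    ∃ r ≤ p, r ≤ q ∧ Same l r p := by
  have h2 : am l q p ≤ q := fun x hx => mem_lv hq fun j hj => (am_lt hj x).1 (hx j)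
  refine ⟨am l q p, fun x hx j => ?_, h2, fun j hj => ?_⟩
  · by_cases hj : S.rk j < l
    · exact mem_res.1 (h (h2 hx)) j hj
    · exact (am_ge hj x).1 (hx j)
  · simp [am, not_lt.2 hj]

theorem adm_decide {l : L} {F : Pt J → ℕ → ℕ} (h : S.Adm l F) (p : Cond S) (m : ℕ) :
    ∃ q ≤ p, Same l q p ∧ ∃ k, ∀ x ∈ q.1.ext, F x m = k := by
  obtain ⟨q, hq, h1, k, hk⟩ := h.2 m _ (res_lv l p).good
  obtain ⟨r, h2, h3, h4⟩ := lift p (ofGood q hq) (lv_ofGood hq) h1
  exact ⟨r, h2, h4, k, fun x hx => hk x (h3 hx)⟩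

theorem prom_dec {j : J} {A : Pt J → Set ℕ} (h : S.Prom j A) (p : Cond S) (v : ℕ) :
    ∃ q ≤ p, Same (S.rk j) q p ∧ ((∀ x ∈ q.1.ext, v ∈ A x) ∨ ∀ x ∈ q.1.ext, v ∉ A x) := by
  obtain ⟨q, hq, h1, hk⟩ := (S.cert j A h).2.1 v _ (res_lv (S.rk j) p).good
  obtain ⟨r, h2, h3, h4⟩ := lift p (ofGood q hq) (lv_ofGood hq) h1
  exact ⟨r, h2, h4, hk.imp (fun hk x hx => hk x (h3 hx)) fun hk x hx => hk x (h3 hx)⟩

theorem prom_sat {j : J} {A : Pt J → Set ℕ} (h : S.Prom j A) (p : Cond S) :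
    ∃ q ≤ p, Same (S.rk j) q p ∧ ∃ v, ∀ x ∈ q.1.ext, v ∈ A x := by
  obtain ⟨q, hq, h1, v, hk⟩ := (S.cert j A h).2.2 _ (res_lv (S.rk j) p).good
  obtain ⟨r, h2, h3, h4⟩ := lift p (ofGood q hq) (lv_ofGood hq) h1
  exact ⟨r, h2, h4, v, fun x hx => hk x (h3 hx)⟩

theorem adm_of_lv {l : L} {F : Pt J → ℕ → ℕ} {T : Set J} (hT : T.Countable)
    (hl : ∀ j ∈ T, S.rk j < l) (hD : Dep F T)
    (h : ∀ (m : ℕ) (p : Cond S), Lv l p → ∃ q ≤ p, ∃ k, ∀ x ∈ q.1.ext, F x m = k) :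
    S.Adm l F := by
  refine ⟨⟨T, hT, hl, hD⟩, fun m p hp => ?_⟩
  obtain ⟨q, hq, k, hk⟩ := h m (ofGood p hp) (lv_ofGood hp)
  refine ⟨_, (res_lv l q).good, res_le (lv_ofGood hp) hq, k, res_prop hk fun x y hxy hx => ?_⟩
  rw [← hD x y fun j hj => hxy j (hl j hj)]
  exact hx

theorem Sys.Adm.mono {l l' : L} {F : Pt J → ℕ → ℕ} (h : S.Adm l F) (hl : l ≤ l') : S.Adm l' F := by
  obtain ⟨T, h1, h2, h3⟩ := h.1
  refine adm_of_lv h1 (fun j hj => (h2 j hj).trans_le hl) h3 fun m p _ => ?_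
  obtain ⟨q, hq, -, h4⟩ := adm_decide h p m
  exact ⟨q, hq, h4⟩

theorem decide_upto {l : L} {F : Pt J → ℕ → ℕ} (h : S.Adm l F) (p : Cond S) (N : ℕ) :
    ∃ q ≤ p, ∃ k : ℕ → ℕ, ∀ x ∈ q.1.ext, ∀ m < N, F x m = k m := by
  induction N with
  | zero => exact ⟨p, le_rfl, 0, fun _ _ m hm => absurd hm (by omega)⟩
  | succ N ih =>
    obtain ⟨q, hq, k, hk⟩ := ih
    obtain ⟨r, hr, -, k', hk'⟩ := adm_decide h q N
    refine ⟨r, hr.trans hq, Function.update k N k', fun x hx m hm => ?_⟩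
    rcases (Nat.lt_succ_iff.1 hm).eq_or_lt with rfl | hm'
    · rw [Function.update_self, hk' x hx]
    · rw [Function.update_of_ne hm'.ne, hk x (hr hx) m hm']

open Classical in
/-- change a condition at one coordinate -/
noncomputable def upd (p : Cond S) (j : J) (n : ℕ) (f : ℕ → ℕ) (A : Pt J → Set ℕ)
    (hA : S.Prom j A) : Cond S :=
  ⟨⟨Function.update p.1.n j n, Function.update p.1.f j f, Function.update p.1.A j A⟩,
    (p.2.1.insert j).subset fun i hi => by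
      by_cases h : i = j
      · exact Or.inl h
      · right; simpa [Raw.supp, h] using hi,
    fun i => by
      by_cases h : i = j
      · subst h; simpa using hA
      · simpa [h] using p.2.2 i⟩

theorem upd_ne {p : Cond S} {j : J} {n : ℕ} {f : ℕ → ℕ} {A : Pt J → Set ℕ}
    {hA : S.Prom j A} {i : J} (h : i ≠ j) (x : Pt J) :
    (upd p j n f A hA).1.At i x ↔ p.1.At i x :=
  At_of_eq (by simp [upd, h]) (by simp [upd, h]) (by simp [upd, h]) x

theorem upd_self {p : Cond S} {j : J} {n : ℕ} {f : ℕ → ℕ} {A : Pt J → Set ℕ}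
    {hA : S.Prom j A} (x : Pt J) : (upd p j n f A hA).1.At j x ↔
      (∀ m < n, x j m = f m) ∧ ∀ m, n ≤ m → (A x).Nonempty → x j m ∈ A x := by
  simp [upd, Raw.At]

theorem upd_low {p : Cond S} {j : J} {n : ℕ} {f : ℕ → ℕ} {A : Pt J → Set ℕ}
    {hA : S.Prom j A} {B : Pt J → Set ℕ} (hB : S.Prom j B) {v : ℕ} (h : ∀ x ∈ p.1.ext, v ∈ B x)
    {x : Pt J} (hx : x ∈ (upd p j n f A hA).1.ext) : v ∈ B x := by
  obtain ⟨y, hy, hxy⟩ := ext_agree p (S.rk j) x fun i hi =>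
    (upd_ne (by rintro rfl; exact lt_irrefl _ hi) x).1 (hx i)
  rw [← prom_congr hB hxy]
  exact h y hy

/-- lengthen a stem by a permitted value -/
theorem step_val (p : Cond S) (j : J) (v : ℕ) (hv : ∀ x ∈ p.1.ext, v ∈ p.1.A j x) :
    ∃ q ≤ p, q.1.n j = p.1.n j + 1 ∧ q.1.f j (p.1.n j) = v ∧ q.1.A = p.1.A ∧
      ∀ i, i ≠ j → q.1.n i = p.1.n i ∧ q.1.f i = p.1.f i := by
  classical
  refine ⟨upd p j (p.1.n j + 1) (Function.update (p.1.f j) (p.1.n j) v) (p.1.A j) (p.2.2 j),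
    ?_, by simp [upd], by simp [upd], by simp [upd], fun i hi => by simp [upd, hi]⟩
  intro x hx i
  have hxj := (upd_self x).1 (hx j)
  by_cases hi : i = j
  · subst hi
    refine ⟨fun m hm => ?_, fun m hm hne => ?_⟩
    · rw [hxj.1 m (by omega), Function.update_of_ne hm.ne]
    · rcases hm.eq_or_lt with h | h
      · subst h
        rw [hxj.1 _ (by omega), Function.update_self]
        exact upd_low (p.2.2 i) hv hx
      · exact hxj.2 m h hne
  · exact (upd_ne hi x).1 (hx i)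

theorem longer (p : Cond S) (j : J) (N : ℕ) : ∃ q ≤ p, N ≤ q.1.n j ∧
    ∀ i, i ≠ j → S.rk j ≤ S.rk i → q.1.n i = p.1.n i := by
  induction N with
  | zero => exact ⟨p, le_rfl, Nat.zero_le _, fun _ _ _ => rfl⟩
  | succ N ih =>
    obtain ⟨q, hq, h1, h2⟩ := ih
    obtain ⟨q1, hq1, h3, v, hv⟩ := prom_sat (q.2.2 j) q
    obtain ⟨r, hr, h4, -, -, h5⟩ := step_val q1 j v (by rw [(h3 j le_rfl).2.2]; exact hv)
    refine ⟨r, hr.trans (hq1.trans hq), ?_, fun i hi hi' => ?_⟩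
    · rw [h4, (h3 j le_rfl).1]; omega
    · rw [(h5 i hi).1, (h3 i hi').1, h2 i hi hi']

theorem promise (p : Cond S) (j : J) {A : Pt J → Set ℕ} (hA : S.Prom j A) :
    ∃ q ≤ p, ∀ x ∈ q.1.ext, ∀ m, p.1.n j ≤ m → x j m ∈ A x := by
  have hI := S.inter j _ _ (p.2.2 j) hA
  obtain ⟨q, hq, h1, v, hv⟩ := prom_sat hI p
  obtain ⟨e1, e2, e3⟩ := h1 j le_rfl
  refine ⟨upd q j (p.1.n j) (p.1.f j) _ hI, le_trans (fun x hx i => ?_) hq, fun x hx m hm => ?_⟩
  · by_cases hi : i = j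
    · subst hi
      have := (upd_self x).1 (hx i)
      rw [At_of_eq e1 e2 e3]
      exact ⟨this.1, fun m hm _ => (this.2 m hm ⟨v, upd_low hI hv hx⟩).1⟩
    · exact (upd_ne hi x).1 (hx i)
  · exact (((upd_self x).1 (hx j)).2 m hm ⟨v, upd_low hI hv hx⟩).2

theorem prom_dec_upto {j : J} {A : Pt J → Set ℕ} (h : S.Prom j A) (p : Cond S) (g : ℕ → ℕ)
    (N : ℕ) : ∃ q ≤ p, Same (S.rk j) q p ∧
      ∀ m < N, (∀ x ∈ q.1.ext, g m ∈ A x) ∨ ∀ x ∈ q.1.ext, g m ∉ A x := by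
  induction N with
  | zero => exact ⟨p, le_rfl, fun _ _ => ⟨rfl, rfl, rfl⟩, fun m hm => absurd hm (by omega)⟩
  | succ N ih =>
    obtain ⟨q, hq, h1, hk⟩ := ih
    obtain ⟨r, hr, h2, hk'⟩ := prom_dec h q (g N)
    refine ⟨r, hr.trans hq, fun i hi => ⟨(h2 i hi).1.trans (h1 i hi).1,
      (h2 i hi).2.1.trans (h1 i hi).2.1, (h2 i hi).2.2.trans (h1 i hi).2.2⟩, fun m hm => ?_⟩
    rcases (Nat.lt_succ_iff.1 hm).eq_or_lt with rfl | hm'
    · exact hk'
    · exact (hk m hm').imp (fun h x hx => h x (hr hx)) fun h x hx => h x (hr hx)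

theorem decide_At (r a : Cond S) (j : J) :
    ∃ q ≤ r, (∀ x ∈ q.1.ext, a.1.At j x) ∨ ∀ x ∈ q.1.ext, ¬ a.1.At j x := by
  obtain ⟨q0, hq0, -, v, hv⟩ := prom_sat (a.2.2 j) r
  obtain ⟨q1, hq1, h1, -⟩ := longer q0 j (a.1.n j)
  obtain ⟨q2, hq2, h2, hk⟩ := prom_dec_upto (a.2.2 j) q1 (q1.1.f j) (q1.1.n j)
  have h3 := (h2 j le_rfl).1
  obtain ⟨q3, hq3, h4⟩ := promise q2 j (a.2.2 j)
  refine ⟨q3, hq3.trans (hq2.trans (hq1.trans hq0)), ?_⟩
  by_cases hc : ∃ y ∈ q3.1.ext, a.1.At j y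
  · left
    obtain ⟨y, hy, hya⟩ := hc
    intro x hx
    have hxy : ∀ m < q1.1.n j, x j m = y j m := fun m hm => by
      rw [(hq2 (hq3 hx) j).1 m hm, (hq2 (hq3 hy) j).1 m hm]
    refine ⟨fun m hm => ?_, fun m hm _ => ?_⟩
    · rw [hxy m (by omega), hya.1 m hm]
    · by_cases hm' : m < q1.1.n j
      · have h5 := hya.2 m hm ⟨v, hv y (hq1 (hq2 (hq3 hy)))⟩
        rw [(hq2 (hq3 hy) j).1 m hm'] at h5
        rw [(hq2 (hq3 hx) j).1 m hm']
        rcases hk m hm' with h6 | h6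
        · exact h6 x (hq3 hx)
        · exact absurd h5 (h6 y (hq3 hy))
      · exact h4 x hx m (by omega)
  · right
    intro x hx h
    exact hc ⟨x, hx, h⟩

theorem decide_ext (r a : Cond S) : ∃ q ≤ r, q ≤ a ∨ ∀ x ∈ q.1.ext, x ∉ a.1.ext := by
  classical
  have key : ∀ D : Finset J, ∃ q ≤ r, (∀ x ∈ q.1.ext, ∀ j ∈ D, a.1.At j x) ∨
      ∀ x ∈ q.1.ext, x ∉ a.1.ext := by
    intro D
    induction D using Finset.induction_on with
    | empty => exact ⟨r, le_rfl, Or.inl (by simp)⟩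
    | insert j D _ ih =>
      obtain ⟨q, hq, h | h⟩ := ih
      · obtain ⟨q', hq', h' | h'⟩ := decide_At q a j
        · refine ⟨q', hq'.trans hq, Or.inl fun x hx i hi => ?_⟩
          rcases Finset.mem_insert.1 hi with rfl | hi
          · exact h' x hx
          · exact h x (hq' hx) i hi
        · exact ⟨q', hq'.trans hq, Or.inr fun x hx hxa => h' x hx (hxa j)⟩
      · exact ⟨q, hq, Or.inr h⟩
  obtain ⟨q, hq, h | h⟩ := key a.2.1.toFinset
  · refine ⟨q, hq, Or.inl fun x hx j => ?_⟩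
    by_cases hs : j ∈ a.1.supp
    · exact h x hx j (by simp [hs])
    · exact At_of_not_supp hs x
  · exact ⟨q, hq, Or.inr h⟩

/-- a condition depends on countably many coordinates -/
theorem exists_dep {l : L} (p : Cond S) (hp : Lv l p) : ∃ T : Set J, T.Countable ∧
    (∀ j ∈ T, S.rk j < l) ∧
    ∀ x y : Pt J, (∀ j ∈ T, x j = y j) → x ∈ p.1.ext → y ∈ p.1.ext := by
  choose T h1 h2 h3 using fun j => (S.cert j _ (p.2.2 j)).1
  refine ⟨p.1.supp ∪ ⋃ j ∈ p.1.supp, T j,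
    p.2.1.countable.union (p.2.1.countable.biUnion fun j _ => h1 j), ?_, fun x y hxy hx j => ?_⟩
  · rintro j (hj | hj)
    · exact hp j hj
    · obtain ⟨i, hi, hj⟩ := Set.mem_iUnion₂.1 hj
      exact (h2 i j hj).trans (hp i hi)
  by_cases hs : j ∈ p.1.supp
  · have := hx j
    unfold Raw.At at this ⊢
    rw [← hxy j (Or.inl hs), ← h3 j x y fun i hi => hxy i (Or.inr (Set.mem_biUnion hs hi))]
    exact this
  · exact At_of_not_supp hs y

/-- amalgamation -/
theorem amalg (r a b : Cond S) (D : Finset J) (hD : ∀ j ∈ D, ∀ i ∈ r.1.supp, S.rk i < S.rk j)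
    (h : ∀ j ∈ D, j ∉ a.1.supp ∨ (b.1.n j ≤ a.1.n j ∧ (∀ m < b.1.n j, a.1.f j m = b.1.f j m) ∧
      ∀ m, b.1.n j ≤ m → m < a.1.n j → ∀ x ∈ r.1.ext, a.1.f j m ∈ b.1.A j x)) :
    ∃ q ≤ r, (∀ x ∈ q.1.ext, ∀ j ∈ D, a.1.At j x ∧ b.1.At j x) ∧
      ∀ i ∈ q.1.supp, i ∈ r.1.supp ∨ i ∈ D ∨ ∃ j ∈ D, S.rk i < S.rk j := by
  classical
  induction D using Finset.induction_on_max_value S.rk with
  | empty => exact ⟨r, le_rfl, by simp, fun i hi => Or.inl hi⟩
  | insert j D hj hmax ih =>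
    obtain ⟨q, hq, h1, h2⟩ := ih (fun i hi => hD i (Finset.mem_insert_of_mem hi))
      fun i hi => h i (Finset.mem_insert_of_mem hi)
    have hI := S.inter j _ _ (a.2.2 j) (b.2.2 j)
    obtain ⟨q1, hq1, h3, v, hv⟩ := prom_sat hI q
    have hjq : j ∉ q.1.supp := by
      intro hc
      rcases h2 j hc with h4 | h4 | ⟨i, hi, h4⟩
      · exact lt_irrefl _ (hD j (Finset.mem_insert_self _ _) j h4)
      · exact hj h4
      · exact absurd (hmax i hi) (not_le.2 h4)
    have key : ∀ n f, upd q1 j n f _ hI ≤ q1 := by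
      intro n f x hx i
      by_cases hi : i = j
      · subst hi
        rw [At_of_eq (h3 i le_rfl).1 (h3 i le_rfl).2.1 (h3 i le_rfl).2.2]
        exact At_of_not_supp hjq x
      · exact (upd_ne hi x).1 (hx i)
    have hsupp : ∀ n f, ∀ i ∈ (upd q1 j n f _ hI).1.supp,
        i ∈ r.1.supp ∨ i ∈ insert j D ∨ ∃ j' ∈ insert j D, S.rk i < S.rk j' := by
      intro n f i hi
      by_cases hij : i = j
      · exact Or.inr (Or.inl (by simp [hij]))
      by_cases hlt : S.rk i < S.rk j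
      · exact Or.inr (Or.inr ⟨j, Finset.mem_insert_self _ _, hlt⟩)
      have h4 : i ∈ q.1.supp := by
        obtain ⟨e1, -, e3⟩ := h3 i (not_lt.1 hlt)
        simpa [Raw.supp, upd, hij, e1, e3] using hi
      rcases h2 i h4 with h5 | h5 | ⟨j', hj', h5⟩
      · exact Or.inl h5
      · exact Or.inr (Or.inl (Finset.mem_insert_of_mem h5))
      · exact Or.inr (Or.inr ⟨j', Finset.mem_insert_of_mem hj', h5⟩)
    rcases h j (Finset.mem_insert_self _ _) with h4 | ⟨h4, h5, h6⟩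
    · refine ⟨upd q1 j (b.1.n j) (b.1.f j) _ hI, (key _ _).trans (hq1.trans hq),
        fun x hx i hi => ?_, hsupp _ _⟩
      rcases Finset.mem_insert.1 hi with rfl | hi
      · have := (upd_self x).1 (hx i)
        exact ⟨At_of_not_supp h4 x, this.1, fun m hm _ => (this.2 m hm ⟨v, upd_low hI hv hx⟩).2⟩
      · exact h1 x (hq1 (key _ _ hx)) i hi
    · refine ⟨upd q1 j (a.1.n j) (a.1.f j) _ hI, (key _ _).trans (hq1.trans hq),
        fun x hx i hi => ?_, hsupp _ _⟩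
      rcases Finset.mem_insert.1 hi with rfl | hi
      · have := (upd_self x).1 (hx i)
        refine ⟨⟨this.1, fun m hm _ => (this.2 m hm ⟨v, upd_low hI hv hx⟩).1⟩, fun m hm => ?_,
          fun m hm _ => ?_⟩
        · rw [this.1 m (by omega), h5 m hm]
        · by_cases hm' : m < a.1.n i
          · rw [this.1 m hm']
            exact h6 m hm hm' x (hq (hq1 (key _ _ hx)))
          · exact (this.2 m (by omega) ⟨v, upd_low hI hv hx⟩).2
      · exact h1 x (hq1 (key _ _ hx)) i hi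

theorem ccc (A : Set (Cond S)) (hA : ∀ a ∈ A, ∀ b ∈ A, (∃ r, r ≤ a ∧ r ≤ b) → a = b) :
    A.Countable := by
  classical
  by_contra hcon
  obtain ⟨a, b, hne, h⟩ := exists_agree (I := J) (Y := A) (fun a => a.1.1.supp) (fun a => a.1.2.1)
    (fun a j => Encodable.encode ((List.range (a.1.1.n j)).map (a.1.1.f j)))
    (fun h => hcon (Set.countable_coe_iff.1 h))
  obtain ⟨a, ha⟩ := a
  obtain ⟨b, hb⟩ := b
  obtain ⟨q, -, h1, -⟩ := amalg top a b (a.2.1.union b.2.1).toFinset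
    (fun _ _ i hi => absurd hi (top_supp i)) (by
      intro j _
      by_cases hj : j ∈ a.1.supp
      · right
        by_cases hj' : j ∈ b.1.supp
        · have h2 := Encodable.encode_injective (h j hj hj')
          have h3 : a.1.n j = b.1.n j := by simpa using congrArg List.length h2
          refine ⟨h3.ge, fun m hm => ?_, fun m h4 h5 => by omega⟩
          dsimp only at h2
          rw [← h3, List.map_inj_left] at h2
          exact h2 m (List.mem_range.2 (h3 ▸ hm))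
        · simp only [Raw.supp, Set.mem_ofPred_eq, not_or, not_not] at hj'
          rw [hj'.1, hj'.2]
          exact ⟨Nat.zero_le _, fun m hm => absurd hm (by omega), fun _ _ _ _ _ => trivial⟩
      · exact Or.inl hj)
  refine hne (Subtype.ext (hA a ha b hb ⟨q, fun x hx j => ?_, fun x hx j => ?_⟩))
  · by_cases hs : j ∈ a.1.supp
    · exact (h1 x hx j (by simp [hs])).1
    · exact At_of_not_supp hs x
  · by_cases hs : j ∈ b.1.supp
    · exact (h1 x hx j (by simp [hs])).2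
    · exact At_of_not_supp hs x

/-- every set of conditions has a countable subset which is predense in it -/
theorem exists_predense (D : Set (Cond S)) : ∃ B ⊆ D, B.Countable ∧
    ∀ d ∈ D, ∃ b ∈ B, ∃ r, r ≤ d ∧ r ≤ b := by
  let Fam : Set (Set (Cond S)) := {B | B ⊆ D ∧ ∀ b ∈ B, ∀ b' ∈ B, (∃ r, r ≤ b ∧ r ≤ b') → b = b'}
  obtain ⟨B, hB⟩ := zorn_subset Fam (by
    intro c hc hchain
    refine ⟨⋃₀ c, ⟨?_, ?_⟩, fun s hs => Set.subset_sUnion_of_mem hs⟩
    · exact Set.sUnion_subset fun s hs => (hc hs).1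
    · rintro b ⟨s, hs, hbs⟩ b' ⟨s', hs', hbs'⟩
      rcases hchain.total hs hs' with h | h
      · exact (hc hs').2 b (h hbs) b' hbs'
      · exact (hc hs).2 b hbs b' (h hbs'))
  refine ⟨B, hB.prop.1, ccc B hB.prop.2, fun d hd => ?_⟩
  by_contra hc
  push Not at hc
  have h1 : insert d B ∈ Fam := by
    refine ⟨Set.insert_subset hd hB.prop.1, ?_⟩
    rintro b (rfl | hb) b' (rfl | hb') ⟨r, h1, h2⟩
    · rfl
    · exact absurd h2 (hc b' hb' r h1)
    · exact absurd h1 (hc b hb r h2)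
    · exact hB.prop.2 b hb b' hb' ⟨r, h1, h2⟩
  have h2 := hB.le_of_ge h1 (Set.subset_insert _ _) (Set.mem_insert _ _)
  exact hc d h2 d le_rfl le_rfl

/-- a name below the level `l` is given by an admissible function -/
theorem capture_lv (l : L) (D : ℕ → ℕ → Cond S → Prop)
    (hD : ∀ m p, Lv l p → ∃ q ≤ p, Lv l q ∧ ∃ v, D m v q) :
    ∃ F, S.Adm l F ∧ ∀ m p, Lv l p →
      ∃ r ≤ p, Lv l r ∧ ∃ v b, D m v b ∧ r ≤ b ∧ ∀ x ∈ r.1.ext, F x m = v := by
  classical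
  have hB : ∀ m, ∃ b : ℕ → Cond S, (∀ i, Lv l (b i) ∧ ∃ v, D m v (b i)) ∧
      ∀ q, Lv l q → ∃ r ≤ q, ∃ i, r ≤ b i := by
    intro m
    obtain ⟨B, h1, h2, h3⟩ := exists_predense {q | Lv l q ∧ ∃ v, D m v q}
    have hne : B.Nonempty := by
      obtain ⟨d, -, hd⟩ := hD m top fun j hj => absurd hj (top_supp j)
      obtain ⟨b, hb, -⟩ := h3 d hd
      exact ⟨b, hb⟩
    obtain ⟨b, rfl⟩ := h2.exists_eq_range hne
    refine ⟨b, fun i => h1 ⟨i, rfl⟩, fun q hq => ?_⟩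
    obtain ⟨d, hdq, hd⟩ := hD m q hq
    obtain ⟨_, ⟨i, rfl⟩, r, h4, h5⟩ := h3 d hd
    exact ⟨r, h4.trans hdq, i, h5⟩
  choose b hb1 hb2 using hB
  choose val hval using fun m i => (hb1 m i).2
  let F : Pt J → ℕ → ℕ := fun x m => val m (sInf {i | x ∈ (b m i).1.ext})
  have hdec : ∀ m N (r0 : Cond S), ∃ r ≤ r0, ∀ i < N, r ≤ b m i ∨
      ∀ x ∈ r.1.ext, x ∉ (b m i).1.ext := by
    intro m N r0
    induction N with
    | zero => exact ⟨r0, le_rfl, fun i hi => absurd hi (by omega)⟩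
    | succ N ih =>
      obtain ⟨r, hr, h⟩ := ih
      obtain ⟨t, ht, h'⟩ := decide_ext r (b m N)
      refine ⟨t, ht.trans hr, fun i hi => ?_⟩
      rcases (Nat.lt_succ_iff.1 hi).eq_or_lt with rfl | hi'
      · exact h'
      · rcases h i hi' with h1 | h1
        · exact Or.inl (ht.trans h1)
        · exact Or.inr fun x hx => h1 x (ht hx)
  have key : ∀ m q, Lv l q → ∃ r ≤ q, ∃ i, r ≤ b m i ∧ ∀ x ∈ r.1.ext, F x m = val m i := by
    intro m q hq
    obtain ⟨r0, hr0, i0, hi0⟩ := hb2 m q hq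
    obtain ⟨r, hr, h⟩ := hdec m i0 r0
    have hne : {i | r ≤ b m i}.Nonempty := ⟨i0, hr.trans hi0⟩
    refine ⟨r, hr.trans hr0, sInf {i | r ≤ b m i}, Nat.sInf_mem hne, fun x hx => ?_⟩
    have h1 : sInf {i | x ∈ (b m i).1.ext} = sInf {i | r ≤ b m i} := by
      have h2 : x ∈ (b m (sInf {i | r ≤ b m i})).1.ext := Nat.sInf_mem hne hx
      refine le_antisymm (Nat.sInf_le h2) ?_
      by_contra hc
      have h3 := not_le.1 hc
      have h4 : sInf {i | r ≤ b m i} ≤ i0 := Nat.sInf_le (hr.trans hi0)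
      rcases h _ (h3.trans_le h4) with h5 | h5
      · exact hc (Nat.sInf_le h5)
      · exact h5 x hx (Nat.sInf_mem (s := {i | x ∈ (b m i).1.ext}) ⟨_, h2⟩)
    simp only [F, h1]
  choose T hT1 hT2 hT3 using fun m i => exists_dep (b m i) (hb1 m i).1
  have hF : S.Adm l F := by
    refine adm_of_lv (T := ⋃ m, ⋃ i, T m i)
      (Set.countable_iUnion fun m => Set.countable_iUnion fun i => hT1 m i) ?_
      (fun x y hxy => ?_) fun m q hq => ?_
    · intro j hj
      obtain ⟨m, hj⟩ := Set.mem_iUnion.1 hj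
      obtain ⟨i, hj⟩ := Set.mem_iUnion.1 hj
      exact hT2 m i j hj
    · funext m
      have : {i | x ∈ (b m i).1.ext} = {i | y ∈ (b m i).1.ext} := by
        ext i
        have h1 : ∀ j ∈ T m i, x j = y j := fun j hj =>
          hxy j (Set.mem_iUnion.2 ⟨m, Set.mem_iUnion.2 ⟨i, hj⟩⟩)
        exact ⟨hT3 m i x y h1, hT3 m i y x fun j hj => (h1 j hj).symm⟩
      simp only [F, this]
    · obtain ⟨r, hr, i, -, h⟩ := key m q hq
      exact ⟨r, hr, _, h⟩
  refine ⟨F, hF, fun m q hq => ?_⟩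
  obtain ⟨r, hr, i, h1, h2⟩ := key m q hq
  refine ⟨res l r, res_le hq hr, res_lv l r, _, b m i, hval m i, res_le (hb1 m i).1 h1,
    res_prop h2 fun x y hxy hx => ?_⟩
  rw [← hF.congr hxy]
  exact hx

end Pool.Agent.H669Z.Gam
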