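import Pool.Agent.H669Z.Gam.Defs
import Pool.Agent.H669Z.Hech.Main

/-!
# The ground model implication
-/

set_option autoImplicit false

namespace Pool.Agent.H669Z.Gam

open Pool.Agent.H669Z.Hech Cardinal Set

theorem lt_dom {O : Type} (h : NotDom O) : #O < dominatingNumber := by
  by_contra hc
  obtain ⟨F, hF, h1⟩ := csInf_mem (s := {c : Cardinal.{0} | ∃ F : Set (ℕ → ℕ),
    (∀ g : ℕ → ℕ, ∃ f ∈ F, {n : ℕ | f n < g n}.Finite) ∧ #F = c}) ⟨_, univ, univ_dom, rfl⟩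
  have h2 : #F ≤ #O := h1.le.trans (not_lt.1 hc)
  obtain ⟨f0, hf0, -⟩ := hF 0
  have hne : Nonempty F := ⟨⟨f0, hf0⟩⟩
  obtain ⟨i⟩ := (Cardinal.le_def _ _).1 h2
  obtain ⟨g, hg⟩ := h fun a => (Function.invFun i a).1
  obtain ⟨f, hf, h3⟩ := hF g
  have := hg (i ⟨f, hf⟩)
  rw [Function.leftInverse_invFun i.injective] at this
  exact this (leStar_iff.2 h3)

theorem exists_prefix {O : Set (ℕ → Bool)} (hO : IsOpen O) {x : ℕ → Bool} (hx : x ∈ O) :
    ∃ s : List Bool, (∀ m : Fin s.length, x m = s.get m) ∧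
      ∀ y : ℕ → Bool, (∀ m : Fin s.length, y m = s.get m) → y ∈ O := by
  have h1 : O ∈ nhds x := hO.mem_nhds hx
  rw [nhds_pi, Filter.mem_pi] at h1
  obtain ⟨I, hI, t, ht, h2⟩ := h1
  obtain ⟨N, hN⟩ := hI.bddAbove
  refine ⟨List.ofFn fun m : Fin (N + 1) => x m,
    fun m => by simp only [List.get_eq_getElem, List.getElem_ofFn], fun y hy => h2 fun i hi => ?_⟩
  have h3 := hy ⟨i, by simpa using Nat.lt_succ_of_le (hN hi)⟩
  simp only [List.get_eq_getElem, List.getElem_ofFn] at h3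
  rw [h3]
  exact mem_of_mem_nhds (ht i)

theorem gamma_of {I : Type} (y : I → ℕ → Bool) (i0 : I)
    (h : ∀ C : Set (List (List Bool)), (∀ F : List I, ∃ c, c ∈ C ∧ ∀ i ∈ F, InCl c (y i)) →
      ∃ g : ℕ → List (List Bool), ∀ i, ∃ m, ∀ t, m ≤ t → g t ∈ C ∧ InCl (g t) (y i)) :
    GammaProperty (range y) := by
  intro U hU
  obtain ⟨g, hg⟩ := h {c | ∃ u ∈ U, ∀ p : range y, InCl c p.1 → p ∈ u} (by
    intro F
    obtain ⟨u, hu, h1⟩ := hU.2 ((fun i => (⟨y i, i, rfl⟩ : range y)) '' {i | i ∈ F})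
      ((List.finite_toSet F).image _)
    obtain ⟨O, hO, rfl⟩ := isOpen_induced_iff.1 (hU.1.1 u hu)
    have h2 : ∀ i ∈ F, ∃ s : List Bool, (∀ m : Fin s.length, y i m = s.get m) ∧
        ∀ z : ℕ → Bool, (∀ m : Fin s.length, z m = s.get m) → z ∈ O :=
      fun i hi => exists_prefix hO (h1 ⟨i, hi, rfl⟩)
    choose! s hs1 hs2 using h2
    refine ⟨F.map s, ⟨_, hu, ?_⟩, fun i hi => ⟨s i, List.mem_map_of_mem hi, hs1 i hi⟩⟩
    rintro p ⟨t, ht, h3⟩
    obtain ⟨i, hi, rfl⟩ := List.mem_map.1 ht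
    exact hs2 i hi _ h3)
  obtain ⟨m0, hm0⟩ := hg i0
  choose u hu1 hu2 using fun t => (hm0 (m0 + t) (Nat.le_add_right _ _)).1
  have h1 : ∀ p : range y, ∃ m, ∀ t, m ≤ t → p ∈ u t := by
    rintro ⟨_, i, rfl⟩
    obtain ⟨m, hm⟩ := hg i
    exact ⟨m, fun t ht => hu2 t _ (hm _ (by omega)).2⟩
  have hsub : range u ⊆ U := by
    rintro _ ⟨t, rfl⟩
    exact hu1 t
  choose M hM using h1
  refine ⟨range u, hsub, ⟨fun v hv => hU.1.1 v (hsub hv), ?_, fun hc => hU.1.2.2 (hsub hc)⟩,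
    fun hfin => ?_, fun p => ?_⟩
  · exact eq_univ_of_forall fun p => ⟨_, ⟨M p, rfl⟩, hM p _ le_rfl⟩
  · have h2 : ∀ v ∈ range u, ∃ p, p ∉ v := fun v hv => by
      by_contra hc
      push Not at hc
      exact hU.1.2.2 (eq_univ_of_forall hc ▸ hsub hv)
    have : Nonempty (range y) := ⟨⟨_, i0, rfl⟩⟩
    choose! p hp using h2
    obtain ⟨N, hN⟩ := (hfin.image fun v => M (p v)).bddAbove
    exact hp _ ⟨N, rfl⟩ (hM _ N (hN ⟨_, ⟨N, rfl⟩, rfl⟩))
  · refine ((finite_Iio (M p)).image u).subset ?_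
    rintro _ ⟨⟨t, rfl⟩, ht⟩
    refine ⟨t, ?_, rfl⟩
    by_contra hc
    exact ht (hM p t (not_lt.1 hc))

/-- the graph of a function -/
def graph (a : ℕ → ℕ) : ℕ → Bool := fun P => decide (P.unpair.2 = a P.unpair.1)

theorem not_s1 {O I : Type} (a : O → ℕ → ℕ) (y : I → ℕ → Bool)
    (h : ∀ w : ℕ → Bool, ∃ γ i, ∀ n, y i (Nat.pair n (a γ n)) = w n) :
    ¬ S1GammaO (range (fun γ => graph (a γ)) × range y) := by
  intro hS
  let Bit : ℕ → Bool → Set (range (fun γ => graph (a γ)) × range y) := fun k b =>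
    {p | ∃ m, p.1.1 (Nat.pair k m) = true ∧ p.2.1 (Nat.pair k m) = b}
  have hopen : ∀ k b, IsOpen (Bit k b) := by
    intro k b
    simp only [Bit, ofPred_exists]
    refine isOpen_iUnion fun m => IsOpen.inter ?_ ?_
    · exact (isOpen_discrete ({true} : Set Bool)).preimage
        (f := fun p : range (fun γ => graph (a γ)) × range y => p.1.1 (Nat.pair k m))
        ((continuous_apply _).comp (continuous_subtype_val.comp continuous_fst))
    · exact (isOpen_discrete ({b} : Set Bool)).preimage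
        (f := fun p : range (fun γ => graph (a γ)) × range y => p.2.1 (Nat.pair k m))
        ((continuous_apply _).comp (continuous_subtype_val.comp continuous_snd))
  have hbit : ∀ γ i k b, (⟨⟨_, γ, rfl⟩, ⟨_, i, rfl⟩⟩ : range (fun γ => graph (a γ)) × range y) ∈
      Bit k b ↔ y i (Nat.pair k (a γ k)) = b := by
    intro γ i k b
    simp [Bit, graph]
  let U : ℕ → ℕ → Set (range (fun γ => graph (a γ)) × range y) := fun n m =>
    Bit (Nat.pair n m) false ∪ ⋃ m' < m, Bit (Nat.pair n m') true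
  have hpt : ∀ s : ℕ → ℕ, ∃ p, ∀ n m, p ∈ U n m ↔ m ≠ s n := by
    intro s
    obtain ⟨γ, i, h1⟩ := h (graph s)
    refine ⟨⟨⟨_, γ, rfl⟩, ⟨_, i, rfl⟩⟩, fun n m => ?_⟩
    simp only [U, mem_union, mem_iUnion, hbit, h1, graph, Nat.unpair_pair]
    simp only [decide_eq_false_iff_not, decide_eq_true_eq, exists_prop, exists_eq_right]
    omega
  have hone : ∀ p n m m', m < m' → p ∈ U n m ∨ p ∈ U n m' := by
    rintro ⟨⟨_, γ, rfl⟩, ⟨_, i, rfl⟩⟩ n m m' hm
    by_cases hb : y i (Nat.pair (Nat.pair n m) (a γ (Nat.pair n m))) = true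
    · exact Or.inr (Or.inr (mem_iUnion₂.2 ⟨m, hm, (hbit _ _ _ _).2 hb⟩))
    · exact Or.inl (Or.inl ((hbit _ _ _ _).2 (by simpa using hb)))
  obtain ⟨u, hu1, hu2⟩ := hS (fun n => range (U n)) (by
    intro n
    refine ⟨⟨?_, eq_univ_of_forall fun p => ?_, ?_⟩, infinite_range_of_injective ?_, fun p => ?_⟩
    · rintro _ ⟨m, rfl⟩
      exact (hopen _ _).union (isOpen_biUnion fun _ _ => hopen _ _)
    · rcases hone p n 0 1 zero_lt_one with h1 | h1
      · exact ⟨_, ⟨0, rfl⟩, h1⟩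
      · exact ⟨_, ⟨1, rfl⟩, h1⟩
    · rintro ⟨m, hm⟩
      obtain ⟨p, hp⟩ := hpt fun _ => m
      exact (hp n m).1 (hm ▸ mem_univ p) rfl
    · intro m m' hm
      obtain ⟨p, hp⟩ := hpt fun _ => m
      by_contra hc
      exact (hp n m).1 (hm ▸ (hp n m').2 (Ne.symm hc)) rfl
    · refine Set.Subsingleton.finite ?_
      rintro _ ⟨⟨m, rfl⟩, hm⟩ _ ⟨⟨m', rfl⟩, hm'⟩
      rcases lt_trichotomy m m' with h1 | h1 | h1
      · exact ((hone p n m m' h1).elim hm hm').elim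
      · rw [h1]
      · exact ((hone p n m' m h1).elim hm' hm).elim)
  choose s hs using hu1
  obtain ⟨p, hp⟩ := hpt s
  obtain ⟨n, hn⟩ := mem_iUnion.1 (hu2 ▸ mem_univ p)
  exact (hp n (s n)).1 (hs n ▸ hn) rfl

theorem ground (O I : Type) (h1 : NotDom O) (h2 : Wit O I) :
    ∃ A Y : Set (ℕ → Bool), (∀ a ∈ A, {n | a n = true}.Infinite) ∧ #A < dominatingNumber ∧
      GammaProperty Y ∧ ¬ S1GammaO (A × Y) := by
  obtain ⟨a, y, h3, h4⟩ := h2
  obtain ⟨-, i0, -⟩ := h3 fun _ => true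
  refine ⟨range fun γ => graph (a γ), range y, ?_, mk_range_le.trans_lt (lt_dom h1),
    gamma_of y i0 h4, not_s1 a y h3⟩
  rintro _ ⟨γ, rfl⟩
  refine infinite_of_injective_forall_mem (f := fun n => Nat.pair n (a γ n))
    (fun n n' h => (Nat.pair_eq_pair.1 h).1) fun n => ?_
  simp [graph]

end Pool.Agent.H669Z.Gam
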