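import Pool.Agent.H669Z.Gam.Limit
import Pool.Agent.H669Z.Gam.Defs

/-!
# The iteration which makes the points of the intermediate extensions a γ-set
-/

set_option autoImplicit false

namespace Pool.Agent.H669Z.Gam

open Pool.Agent.Helper292.ForceCH
open Pool.Agent.H669Z.Hech (Pt Dep)
open Filter

inductive JJ : Type
  | d : Set Om → JJ
  | coh : Om → JJ
  | node : Om → Om → (ℕ → JJ) → ((ℕ → ℕ → ℕ) → ℕ → ℕ) → JJ

noncomputable instance : OrderBot Om := WellFoundedLT.toOrderBot Om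

noncomputable def rk0 : JJ → Om
  | .d _ => ⊥
  | .coh β => β
  | .node _ ρ _ _ => ρ

noncomputable def bet : JJ → Om
  | .d _ => ⊥
  | .coh β => β
  | .node β _ _ _ => β

def cov : JJ → Pt JJ → ℕ → ℕ
  | .d _ => 0
  | .coh _ => 0
  | .node _ _ s Φ => fun x => Φ (x ∘ s)

theorem countable_Iic' (γ : Om) : (Set.Iic γ).Countable := by
  rw [← Set.Iio_insert]
  exact (Set.countable_coe_iff.1 (countable_Iio γ)).insert _

noncomputable def en (γ : Om) : Om → ℕ := (Set.countable_iff_exists_injOn.1 (countable_Iic' γ)).choose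

theorem en_inj (γ : Om) : Set.InjOn (en γ) (Set.Iic γ) := 
  (Set.countable_iff_exists_injOn.1 (countable_Iic' γ)).choose_spec

def Ap (γ : Om) (x : Pt JJ) (P : ℕ) : Prop := ∀ β < γ, en γ β ≤ P → x (.coh β) P = 0

abbrev Pnt : Type := Om × (Pt JJ → ℕ → ℕ)

open Classical in
noncomputable def pt (w : Pnt) (x : Pt JJ) (P : ℕ) : Bool := decide (w.2 x P ≠ 0 ∧ Ap w.1 x P)

def dec (v : ℕ) : List (List Bool) := (Encodable.decode v).getD []

theorem dec_encode (c : List (List Bool)) : dec (Encodable.encode c) = c := by simp [dec]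

def tl (v : ℕ) : ℕ := ((dec v).map List.length).sum

theorem incl_local {v : ℕ} {y y' : ℕ → Bool} (h : InCl (dec v) y) (h' : ∀ P < tl v, y P = y' P) :
    InCl (dec v) y' := by
  obtain ⟨s, hs, h1⟩ := h
  refine ⟨s, hs, fun m => ?_⟩
  rw [← h' m (m.2.trans_le (List.le_sum_of_mem (List.mem_map_of_mem hs))), h1 m]

def AA (j : JJ) (F : List Pnt) (N : ℕ) (x : Pt JJ) : Set ℕ :=
  {v | cov j x v ≠ 0 ∧ (∀ w ∈ F, InCl (dec v) (pt w x)) ∧
    ∀ y : ℕ → Bool, (∀ P, y P = true → P < N ∨ x (.coh (bet j)) P = 0) → InCl (dec v) y}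

theorem AA_local {j : JJ} {F F' : List Pnt} {N v : ℕ} {x y : Pt JJ} (h : v ∈ AA j F N x)
    (h1 : cov j y v ≠ 0) (h2 : ∀ w' ∈ F', ∃ w ∈ F, ∀ P < tl v, pt w x P = pt w' y P)
    (h3 : ∀ P < tl v, x (.coh (bet j)) P = y (.coh (bet j)) P) : v ∈ AA j F' N y := by
  refine ⟨h1, fun w' hw' => ?_, fun z hz => ?_⟩
  · obtain ⟨w, hw, h4⟩ := h2 w' hw'
    exact incl_local (h.2.1 w hw) h4
  · refine incl_local (h.2.2 (fun P => z P && decide (P < tl v)) fun P hP => ?_) fun P hP => ?_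
    · simp only [Bool.and_eq_true, decide_eq_true_eq] at hP
      rw [h3 P hP.2]
      exact hz P hP.1
    · simp [hP]

noncomputable def rk (j : JJ) : WithTop Om := rk0 j

def Sh (G : WithTop Om → Raw JJ → Prop) (j : JJ) (A : Pt JJ → Set ℕ) : Prop :=
  bet j < rk0 j ∧ ∃ (F : List Pnt) (N : ℕ),
    (∀ w ∈ F, w.1 ≤ bet j ∧ AdmF rk (G w.1) w.1 w.2) ∧ A = AA j F N

noncomputable def SS : Sys JJ (WithTop Om) := build rk Sh
  (by
    intro G G' j h
    funext A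
    unfold Sh
    refine propext (and_congr_right fun hj => exists_congr fun F => exists_congr fun N =>
      and_congr_left fun _ => forall₂_congr fun w _ => and_congr_right fun hw => ?_)
    rw [h w.1 (WithTop.coe_le_coe.2 (hw.trans hj.le))])
  (by
    rintro G j A A' ⟨hj, F, N, h1, rfl⟩ ⟨-, F', N', h2, rfl⟩
    refine ⟨hj, F ++ F', max N N', fun w hw => (List.mem_append.1 hw).elim (h1 w) (h2 w), ?_⟩
    funext x
    ext v
    constructor
    · rintro ⟨⟨a1, a2, a3⟩, -, b2, b3⟩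
      refine ⟨a1, fun w hw => (List.mem_append.1 hw).elim (a2 w) (b2 w), fun y hy => ?_⟩
      rcases le_total N N' with h | h
      · exact b3 y (by simpa [h] using hy)
      · exact a3 y (by simpa [h] using hy)
    · rintro ⟨a1, a2, a3⟩
      exact ⟨⟨a1, fun w hw => a2 w (List.mem_append_left _ hw), fun y hy => a3 y fun P hP =>
        (hy P hP).imp (fun h => h.trans_le (le_max_left _ _)) id⟩,
        a1, fun w hw => a2 w (List.mem_append_right _ hw), fun y hy => a3 y fun P hP =>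
        (hy P hP).imp (fun h => h.trans_le (le_max_right _ _)) id⟩)

theorem gd_good : Gd rk Sh = SS.Good := gd_eq rk Sh (by
    intro G G' j h
    funext A
    unfold Sh
    refine propext (and_congr_right fun hj => exists_congr fun F => exists_congr fun N =>
      and_congr_left fun _ => forall₂_congr fun w _ => and_congr_right fun hw => ?_)
    rw [h w.1 (WithTop.coe_le_coe.2 (hw.trans hj.le))])

def Pts (β : Om) (F : List Pnt) : Prop := ∀ w ∈ F, w.1 ≤ β ∧ SS.Adm w.1 w.2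

def Cer (j : JJ) : Prop := bet j < rk0 j ∧
  ∀ F N, Pts (bet j) F → Cert rk (SS.Good (rk j)) j (AA j F N)

theorem prom_iff {j : JJ} {A : Pt JJ → Set ℕ} : SS.Prom j A ↔ (A = fun _ => Set.univ) ∨
    (Cer j ∧ ∃ F N, Pts (bet j) F ∧ A = AA j F N) := by
  change PromF rk Sh (Gd rk Sh) j A ↔ _
  rw [gd_good]
  refine or_congr_right ⟨?_, ?_⟩
  · rintro ⟨⟨h1, F, N, h2, rfl⟩, h3⟩
    exact ⟨⟨h1, fun F' N' h4 => h3 _ ⟨h1, F', N', h4, rfl⟩⟩, F, N, h2, rfl⟩
  · rintro ⟨⟨h1, h3⟩, F, N, h2, rfl⟩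
    refine ⟨⟨h1, F, N, h2, rfl⟩, ?_⟩
    rintro _ ⟨-, F', N', h4, rfl⟩
    exact h3 F' N' h4

theorem rk_lt {j : JJ} {β : Om} : SS.rk j < (β : WithTop Om) ↔ rk0 j < β := WithTop.coe_lt_coe

theorem lv_top (p : Cond SS) : Lv ⊤ p := fun _ _ => WithTop.coe_lt_top _

/-! ### Cohen coordinates -/

theorem cohen_univ (p : Cond SS) {j : JJ} (hj : bet j = rk0 j) : p.1.A j = fun _ => Set.univ := by
  rcases prom_iff.1 (p.2.2 j) with h | h
  · exact h
  · exact absurd hj h.1.1.ne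

theorem cohen_ext (p : Cond SS) {j : JJ} (hj : bet j = rk0 j) (T c : ℕ) :
    ∃ q ≤ p, (∀ x ∈ q.1.ext, ∀ m, p.1.n j ≤ m → m < T → x j m = c) ∧
      ∀ i, i ≠ j → q.1.n i = p.1.n i ∧ q.1.f i = p.1.f i ∧ q.1.A i = p.1.A i := by
  classical
  refine ⟨upd p j (max T (p.1.n j)) (fun m => if m < p.1.n j then p.1.f j m else c) _ (SS.univ j),
    fun x hx i => ?_, fun x hx m hm hm' => ?_, fun i hi => by simp [upd, hi]⟩
  · by_cases hi : i = j
    · subst hi
      refine ⟨fun m hm => ?_, fun m _ _ => by rw [cohen_univ p hj]; trivial⟩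
      rw [((upd_self x).1 (hx i)).1 m (by omega), if_pos hm]
    · exact (upd_ne hi x).1 (hx i)
  · rw [((upd_self x).1 (hx j)).1 m (by omega), if_neg (by omega)]

theorem agree_many (p : Cond SS) (D : Set JJ) (hD : D.Finite) (T : ℕ) :
    ∃ q ≤ p, ∀ x ∈ q.1.ext, ∀ y ∈ q.1.ext, ∀ j ∈ D, ∀ m < T, x j m = y j m := by
  induction D, hD using Set.Finite.induction_on with
  | empty => exact ⟨p, le_rfl, by simp⟩
  | @insert j D _ _ ih =>
    obtain ⟨q, hq, h⟩ := ih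
    obtain ⟨r, hr, h1, -⟩ := longer q j T
    refine ⟨r, hr.trans hq, fun x hx y hy i hi m hm => ?_⟩
    rcases hi with rfl | hi
    · rw [(hx i).1 m (by omega), (hy i).1 m (by omega)]
    · exact h x (hr hx) y (hr hy) i hi m hm

theorem fin_en (γ : Om) (T : ℕ) : {β | β < γ ∧ en γ β ≤ T}.Finite :=
  Set.Finite.of_finite_image (f := en γ) ((Set.finite_Iic T).subset (by
    rintro _ ⟨β, h, rfl⟩; exact h.2)) ((en_inj γ).mono fun _ h => h.1.le)

theorem ap_agree (p : Cond SS) (γ : Om) (T : ℕ) :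
    ∃ q ≤ p, ∀ x ∈ q.1.ext, ∀ y ∈ q.1.ext, ∀ P < T, Ap γ x P → Ap γ y P := by
  obtain ⟨q, hq, h⟩ := agree_many p (JJ.coh '' {β | β < γ ∧ en γ β ≤ T}) ((fin_en γ T).image _) T
  refine ⟨q, hq, fun x hx y hy P hP h1 β hβ h2 => ?_⟩
  rw [← h x hx y hy _ ⟨β, ⟨hβ, by omega⟩, rfl⟩ P hP]
  exact h1 β hβ h2

theorem pt_agree (p : Cond SS) (w : Pnt) {l : WithTop Om} (hw : SS.Adm l w.2) (T : ℕ) :
    ∃ q ≤ p, ∀ x ∈ q.1.ext, ∀ y ∈ q.1.ext, ∀ P < T, pt w x P = pt w y P := by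
  obtain ⟨q, hq, h⟩ := ap_agree p w.1 T
  obtain ⟨r, hr, k, hk⟩ := decide_upto hw q T
  refine ⟨r, hr.trans hq, fun x hx y hy P hP => ?_⟩
  unfold pt
  rw [hk x hx P hP, hk y hy P hP]
  exact decide_eq_decide.2 (and_congr_right fun _ =>
    ⟨h x (hr hx) y (hr hy) P hP, h y (hr hy) x (hr hx) P hP⟩)

theorem pts_agree (p : Cond SS) (F : List Pnt) (hF : ∀ w ∈ F, SS.Adm w.1 w.2) (T : ℕ) :
    ∃ q ≤ p, ∀ x ∈ q.1.ext, ∀ y ∈ q.1.ext, ∀ w ∈ F, ∀ P < T, pt w x P = pt w y P := by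
  induction F with
  | nil => exact ⟨p, le_rfl, by simp⟩
  | cons w F ih =>
    obtain ⟨q, hq, h⟩ := ih fun w hw => hF w (List.mem_cons_of_mem _ hw)
    obtain ⟨r, hr, h1⟩ := pt_agree q w (hF w List.mem_cons_self) T
    refine ⟨r, hr.trans hq, fun x hx y hy w' hw' => ?_⟩
    rcases List.mem_cons.1 hw' with rfl | hw'
    · exact h1 x hx y hy
    · exact h x (hr hx) y (hr hy) w' hw'

theorem ap_set (p : Cond SS) (γ : Om) (n : ℕ) :
    ∃ q ≤ p, ∃ m, ∀ x ∈ q.1.ext, Ap γ x (Nat.pair n m) := by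
  obtain ⟨M, hM⟩ := (p.2.1.image p.1.n).bddAbove
  have hM' : ∀ j, p.1.n j ≤ Nat.pair n M := by
    intro j
    by_cases hj : j ∈ p.1.supp
    · exact (hM ⟨j, hj, rfl⟩).trans (Nat.right_le_pair _ _)
    · simp only [Raw.supp, Set.mem_ofPred_eq, not_or, not_not] at hj
      omega
  have key : ∀ D : Set Om, D.Finite → ∃ q ≤ p, (∀ β ∈ D, ∀ x ∈ q.1.ext,
      x (.coh β) (Nat.pair n M) = 0) ∧ ∀ β ∉ D, q.1.n (.coh β) = p.1.n (.coh β) := by
    intro D hD
    induction D, hD using Set.Finite.induction_on with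
    | empty => exact ⟨p, le_rfl, by simp, fun _ _ => rfl⟩
    | @insert β D hβ _ ih =>
      obtain ⟨q, hq, h1, h2⟩ := ih
      obtain ⟨r, hr, h3, h4⟩ := cohen_ext q (j := .coh β) rfl (Nat.pair n M + 1) 0
      refine ⟨r, hr.trans hq, fun β' hβ' x hx => ?_, fun β' hβ' => ?_⟩
      · rcases hβ' with rfl | hβ'
        · exact h3 x hx _ (h2 _ hβ ▸ hM' _) (Nat.lt_succ_self _)
        · exact h1 β' hβ' x (hr hx)
      · rw [Set.mem_insert_iff, not_or] at hβ'
        rw [(h4 _ fun h => hβ'.1 (JJ.coh.inj h)).1, h2 β' hβ'.2]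
  obtain ⟨q, hq, h, -⟩ := key _ (fin_en γ (Nat.pair n M))
  exact ⟨q, hq, M, fun x hx β h1 h2 => h β ⟨h1, h2⟩ x hx⟩

theorem pt_congr {w : Pnt} {x y : Pt JJ} (h1 : w.2 x = w.2 y)
    (h2 : ∀ β < w.1, x (.coh β) = y (.coh β)) : pt w x = pt w y := by
  funext P
  unfold pt Ap
  rw [h1]
  refine decide_eq_decide.2 (and_congr_right fun _ => forall₂_congr fun β hβ => ?_)
  rw [h2 β hβ]

theorem pt_congr' {w : Pnt} {β : Om} (h : w.1 ≤ β) (hw : SS.Adm w.1 w.2) {x y : Pt JJ}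
    (hxy : ∀ j, SS.rk j < β → x j = y j) : pt w x = pt w y :=
  pt_congr (hw.congr fun j hj => hxy j (hj.trans_le (WithTop.coe_le_coe.2 h)))
    fun _ hβ => hxy _ (rk_lt.2 (hβ.trans_le h))

theorem adm_const (l : WithTop Om) (c : ℕ → ℕ) : SS.Adm l fun _ => c :=
  adm_of_lv Set.countable_empty (by simp) (fun _ _ _ => rfl)
    fun m p _ => ⟨p, le_rfl, c m, fun _ _ => rfl⟩

/-- a node whose family is forced to cover the finite sets of points is active -/
theorem cer_of {j : JJ} (hj : bet j < rk0 j) (hu : SS.Adm (bet j) (cov j))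
    (hs : ∀ F, Pts (bet j) F → ∀ p : Cond SS, Lv (bet j : WithTop Om) p → ∃ q ≤ p, ∃ v,
      ∀ x ∈ q.1.ext, cov j x v ≠ 0 ∧ ∀ w ∈ F, InCl (dec v) (pt w x)) : Cer j := by
  classical
  refine ⟨hj, fun F N hF => ?_⟩
  have hj' : (bet j : WithTop Om) < SS.rk j := WithTop.coe_lt_coe.2 hj
  have hcongr : ∀ v (x y : Pt JJ), (∀ i, SS.rk i < SS.rk j → x i = y i) → v ∈ AA j F N x →
      v ∈ AA j F N y := by
    intro v x y hxy h
    refine AA_local h ?_ (fun w hw => ⟨w, hw, fun P _ => ?_⟩) fun P _ => ?_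
    · rw [← hu.congr fun i hi => hxy i (hi.trans hj')]
      exact h.1
    · rw [pt_congr' (hF w hw).1 (hF w hw).2 fun i hi => hxy i (hi.trans hj')]
    · rw [hxy (.coh (bet j)) hj']
  refine ⟨?_, fun v p hp => ?_, fun p hp => ?_⟩
  · obtain ⟨T0, a1, a2, a3⟩ := hu.1
    choose! T b1 b2 b3 using fun w hw => (hF w hw).2.1
    refine ⟨T0 ∪ (⋃ w ∈ {w | w ∈ F}, T w) ∪ JJ.coh '' Set.Iic (bet j),
      (a1.union ((List.finite_toSet F).countable.biUnion b1)).union ((countable_Iic' _).image _),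
      ?_, ?_⟩
    · rintro i ((hi | hi) | ⟨β, hβ, rfl⟩)
      · exact (a2 i hi).trans hj'
      · obtain ⟨w, hw, hi⟩ := Set.mem_iUnion₂.1 hi
        exact ((b2 w hw i hi).trans_le (WithTop.coe_le_coe.2 (hF w hw).1)).trans hj'
      · exact WithTop.coe_lt_coe.2 (lt_of_le_of_lt hβ hj)
    · have key : ∀ x y : Pt JJ, (∀ i ∈ T0 ∪ (⋃ w ∈ {w | w ∈ F}, T w) ∪ JJ.coh '' Set.Iic (bet j),
          x i = y i) → AA j F N x ⊆ AA j F N y := by
        intro x y hxy v h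
        refine AA_local h ?_ (fun w hw => ⟨w, hw, fun P _ => ?_⟩) fun P _ => ?_
        · rw [← a3 x y fun i hi => hxy i (Or.inl (Or.inl hi))]
          exact h.1
        · rw [pt_congr (b3 w hw x y fun i hi => hxy i (Or.inl (Or.inr (Set.mem_biUnion hw hi))))
            fun β hβ => hxy _ (Or.inr ⟨β, hβ.le.trans (hF w hw).1, rfl⟩)]
        · rw [hxy _ (Or.inr ⟨_, Set.self_mem_Iic, rfl⟩)]
      exact fun x y hxy => (key x y hxy).antisymm (key y x fun i hi => (hxy i hi).symm)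
  · obtain ⟨q1, h1, -, k, hk⟩ := adm_decide hu (ofGood p hp) v
    obtain ⟨q2, h2, h3⟩ := pts_agree q1 F (fun w hw => (hF w hw).2) (tl v)
    obtain ⟨q3, h4, h5⟩ := agree_many q2 {.coh (bet j)} (Set.finite_singleton _) (tl v)
    refine ⟨_, (res_lv (SS.rk j) q3).good, res_le (lv_ofGood hp) (h4.trans (h2.trans h1)), ?_⟩
    by_cases h : ∃ x ∈ q3.1.ext, v ∈ AA j F N x
    · obtain ⟨x, hx, h⟩ := h
      refine Or.inl (res_prop (fun y hy => ?_) (hcongr v))
      refine AA_local h ?_ (fun w hw => ⟨w, hw, h3 x (h4 hx) y (h4 hy) w hw⟩) (h5 x hx y hy _ rfl)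
      rw [hk y (h2 (h4 hy)), ← hk x (h2 (h4 hx))]
      exact h.1
    · exact Or.inr (res_prop (fun y hy h' => h ⟨y, hy, h'⟩) fun x y hxy hx hy =>
        hx (hcongr v y x (fun i hi => (hxy i hi).symm) hy))
  · let p0 := ofGood p hp
    let nc := max N (p0.1.n (.coh (bet j)))
    let F' : List Pnt := (Finset.range nc).powerset.toList.map fun s =>
      (⊥, fun _ P => if P ∈ s then 1 else 0)
    obtain ⟨q1, h1, v, h2⟩ := hs (F ++ F') (by
      intro w hw
      rcases List.mem_append.1 hw with hw | hw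
      · exact hF w hw
      · obtain ⟨s, -, rfl⟩ := List.mem_map.1 hw
        exact ⟨bot_le, adm_const _ _⟩) (res _ p0) (res_lv _ _)
    have h3 : ∀ x ∈ (res (bet j : WithTop Om) q1).1.ext, cov j x v ≠ 0 ∧
        ∀ w ∈ F ++ F', InCl (dec v) (pt w x) := by
      refine res_prop h2 fun x y hxy hx => ⟨?_, fun w hw => ?_⟩
      · rw [← hu.congr hxy]; exact hx.1
      · have h4 : w.1 ≤ bet j ∧ SS.Adm w.1 w.2 := by
          rcases List.mem_append.1 hw with hw | hw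
          · exact hF w hw
          · obtain ⟨s, -, rfl⟩ := List.mem_map.1 hw
            exact ⟨bot_le, adm_const _ _⟩
        rw [← pt_congr' h4.1 h4.2 hxy]
        exact hx.2 w hw
    obtain ⟨q2, h4, h5, h6⟩ := lift p0 (res (bet j : WithTop Om) q1) (res_lv _ _) (res_le (res_lv _ _) h1)
    obtain ⟨q3, h7, h8, -⟩ := cohen_ext q2 (j := .coh (bet j)) rfl (tl v) 1
    rw [(h6 (.coh (bet j)) le_rfl).1] at h8
    refine ⟨_, (res_lv (SS.rk j) q3).good, res_le (lv_ofGood hp) (h7.trans h4), v,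
      res_prop (fun x hx => ?_) (hcongr v)⟩
    obtain ⟨h9, h10⟩ := h3 x (h5 (h7 hx))
    refine ⟨h9, fun w hw => h10 w (List.mem_append_left _ hw), fun y hy => ?_⟩
    refine incl_local (h10 _ (List.mem_append_right _ (List.mem_map.2
      ⟨(Finset.range nc).filter fun P => y P = true, by simp, rfl⟩))) fun P hP => ?_
    have h11 : Ap ⊥ x P := fun β hβ => absurd hβ not_lt_bot
    cases hyP : y P
    · simp [pt, hyP]
    · have h12 : P < nc := by
        rcases hy P hyP with h12 | h12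
        · exact h12.trans_le (le_max_left _ _)
        · by_contra hc
          rw [h8 x hx P ((le_max_right _ _).trans (not_lt.1 hc)) hP] at h12
          exact one_ne_zero h12
      simp [pt, hyP, h11, h12]

theorem exists_level (T : Set JJ) (hT : T.Countable) : ∃ β : Om, ∀ j ∈ T, rk0 j < β := by
  have : Nonempty JJ := ⟨.coh ⊥⟩
  obtain ⟨s, hs⟩ := Set.countable_iff_exists_subset_range.1 hT
  obtain ⟨β, hβ⟩ := exists_bound fun n => rk0 (s n)
  refine ⟨β, fun j hj => ?_⟩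
  obtain ⟨n, rfl⟩ := hs hj
  exact hβ n

theorem adm_lower {F : Pt JJ → ℕ → ℕ} (h : SS.Adm ⊤ F) : ∃ β : Om, SS.Adm β F := by
  obtain ⟨T, h1, -, h3⟩ := h.1
  obtain ⟨β, hβ⟩ := exists_level T h1
  refine ⟨β, adm_of_lv h1 (fun j hj => rk_lt.2 (hβ j hj)) h3 fun m p _ => ?_⟩
  obtain ⟨q, hq, -, h4⟩ := adm_decide h p m
  exact ⟨q, hq, h4⟩

theorem exists_node {β : Om} {u : Pt JJ → ℕ → ℕ} (hu : SS.Adm β u) :
    ∃ j, bet j = β ∧ β < rk0 j ∧ cov j = u := by
  have : Nonempty JJ := ⟨.coh ⊥⟩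
  obtain ⟨T, h1, -, h3⟩ := hu.1
  obtain ⟨s, hs⟩ := Set.countable_iff_exists_subset_range.1 h1
  obtain ⟨ρ, hρ⟩ := exists_gt β
  refine ⟨.node β ρ s fun ξ => u fun j => ξ (Function.invFun s j), rfl, hρ, funext fun x => ?_⟩
  exact h3 _ _ fun j hj => congrArg x (Function.invFun_eq (hs hj))

/-! ### No real dominates uncountably many of the Cohen reals -/

theorem exists_rep (p : Cond SS) (j : JJ) : ∃ (F : List Pnt) (N : ℕ), Pts (bet j) F ∧
    ((p.1.A j = fun _ => Set.univ) ∨ (Cer j ∧ p.1.A j = AA j F N)) := by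
  rcases prom_iff.1 (p.2.2 j) with h | ⟨h, F, N, h1, h2⟩
  · exact ⟨[], 0, by simp [Pts], Or.inl h⟩
  · exact ⟨F, N, h1, Or.inr ⟨h, h2⟩⟩

theorem root_of (U : Ultrafilter ℕ) (p : ℕ → Cond SS) (j : JJ) (F : ℕ → List Pnt) (n N : ℕ)
    (s : List ℕ) (cs : List ℕ) (hF : ∀ k, Pts (bet j) (F k))
    (h : ∀ᶠ k in U, (p k).1.n j = n ∧ (List.range ((p k).1.n j)).map ((p k).1.f j) = s ∧
      (F k).map (fun w => en (bet j) w.1) = cs ∧
      (((p k).1.A j = fun _ => Set.univ) ∨ (Cer j ∧ (p k).1.A j = AA j (F k) N))) :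
    Root U p j := by
  classical
  have hstem : ∀ᶠ k in U, (p k).1.n j = n ∧ ∀ i < n, (p k).1.f j i = s.getD i 0 := by
    refine h.mono ?_
    rintro k ⟨h1, h2, -⟩
    refine ⟨h1, fun i hi => ?_⟩
    rw [← h2, h1]
    simp [hi]
  by_cases hc : Cer j
  swap
  · refine ⟨n, fun i => s.getD i 0, ∅, Set.finite_empty, by simp, hstem, fun Z _ =>
      ⟨_, SS.univ j, fun v => ⟨0, h.mono ?_⟩⟩⟩
    rintro k ⟨-, -, -, h2 | ⟨h2, -⟩⟩ x - -
    · rw [h2]; trivial
    · exact absurd h2 hc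
  obtain ⟨k0, -, -, hk0, -⟩ := h.exists
  let F' : ℕ → List Pnt := fun k => if (F k).map (fun w => en (bet j) w.1) = cs then F k else F k0
  have a1 : ∀ k, Pts (bet j) (F' k) := fun k => by
    simp only [F']; split_ifs <;> exact hF _
  have a2 : ∀ k, (F' k).map (fun w => en (bet j) w.1) = cs := fun k => by
    simp only [F']; split_ifs with h
    · exact h
    · exact hk0
  have a3 : ∀ k, (F' k).length = cs.length := fun k => by rw [← a2 k, List.length_map]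
  let g : ℕ → Fin cs.length → Pnt := fun k l => (F' k)[l.1]'(by rw [a3]; exact l.2)
  have a4 : ∀ k l, g k l ∈ F' k := fun k l => List.getElem_mem _
  have a5 : ∀ k l, (g k l).1 = (g 0 l).1 := by
    intro k l
    refine en_inj (bet j) (a1 k _ (a4 k l)).1 (a1 0 _ (a4 0 l)).1 ?_
    have e : ∀ k, en (bet j) (g k l).1 = cs[l.1] := fun k => by
      simp only [g, ← a2 k, List.getElem_map]
    rw [e, e]
  let W : Fin cs.length → WithTop Om × (ℕ → Pt JJ → ℕ → ℕ) := fun l =>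
    ((g 0 l).1, fun k => (g k l).2)
  refine ⟨n, fun i => s.getD i 0, Set.range W, Set.finite_range _, ?_, hstem, fun Z hZ => ?_⟩
  · rintro _ ⟨l, rfl⟩
    refine ⟨WithTop.coe_le_coe.2 ((a1 0 _ (a4 0 l)).1.trans hc.1.le), fun k => ?_⟩
    have := (a1 k _ (a4 k l)).2
    rwa [a5 k l] at this
  · let G : List Pnt := List.ofFn fun l => ((g 0 l).1, Z (W l))
    refine ⟨AA j G N, prom_iff.2 (Or.inr ⟨hc, G, N, fun w hw => ?_, rfl⟩), fun v => ⟨tl v, ?_⟩⟩
    · obtain ⟨l, rfl⟩ := List.mem_ofFn.1 hw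
      exact ⟨(a1 0 _ (a4 0 l)).1, hZ _ ⟨l, rfl⟩⟩
    · refine h.mono ?_
      rintro k ⟨-, -, h1, h2 | ⟨-, h2⟩⟩ x hx hv
      · rw [h2]; trivial
      · rw [h2]
        refine AA_local hv hv.1 (fun w' hw' => ?_) fun _ _ => rfl
        have e : F' k = F k := if_pos h1
        obtain ⟨l, hl, rfl⟩ := List.getElem_of_mem (e ▸ hw')
        refine ⟨_, List.mem_ofFn.2 ⟨⟨l, a3 k ▸ hl⟩, rfl⟩, fun P hP => ?_⟩
        unfold pt
        refine decide_eq_decide.2 (and_congr (hx _ ⟨⟨l, a3 k ▸ hl⟩, rfl⟩ P hP).symm ?_)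
        rw [← a5 k]

end Pool.Agent.H669Z.Gam
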