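import Pool.Agent.H669Z.Gam.Frame

/-!
# Limits of sequences of conditions
-/

set_option autoImplicit false

namespace Pool.Agent.H669Z.Gam

open Pool.Agent.H669Z.Hech (Pt Dep)
open Filter

variable {J L : Type} [LinearOrder L] {S : Sys J L}

/-- below `q`, conditions obeying `Ok k t` are dense, for `k` in any large set -/
def Inv (U : Ultrafilter ℕ) (l : L) (Ok : ℕ → ℕ → Cond S → Prop) (q : Cond S) : Prop :=
  ∀ r ≤ q, Lv l r → ∀ B ∈ U, ∀ t, ∃ k ∈ B, ∃ r' ≤ r, Lv l r' ∧ Ok k t r'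

theorem Inv.mono {U : Ultrafilter ℕ} {l : L} {Ok : ℕ → ℕ → Cond S → Prop} {q r : Cond S}
    (h : Inv U l Ok q) (hr : r ≤ q) : Inv U l Ok r := fun t ht => h t (ht.trans hr)

section

variable (U : Ultrafilter ℕ) (l : L) (Ok : ℕ → ℕ → Cond S → Prop) (z : ℕ → Pt J → ℕ → ℕ)

def Large (m : ℕ) (σ : ℕ → Prop) (r : Cond S) : Prop :=
  Inv U l (fun k t r' => Ok k t r' ∧ ∀ x ∈ r'.1.ext, ∀ P < m, (z k x P ≠ 0 ↔ σ P)) r

def Can (q : Cond S) : ℕ → (ℕ → Prop) → Cond S → Prop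
  | 0, _, r => r ≤ q
  | m + 1, σ, r => Can q m σ r ∧ Large U l Ok z (m + 1) σ r ∧
      (σ m → ∀ r1 ≤ r, Lv l r1 → ¬ Large U l Ok z (m + 1) (Function.update σ m False) r1)

variable {U l Ok z}

theorem large_congr {m : ℕ} {σ σ' : ℕ → Prop} (h : ∀ P < m, (σ P ↔ σ' P)) {r : Cond S}
    (hr : Large U l Ok z m σ r) : Large U l Ok z m σ' r := by
  intro r1 h1 h2 B hB t
  obtain ⟨k, hk, r', h3, h4, h5, h6⟩ := hr r1 h1 h2 B hB t
  exact ⟨k, hk, r', h3, h4, h5, fun x hx P hP => (h6 x hx P hP).trans (h P hP)⟩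

theorem can_mono {q : Cond S} {m : ℕ} {σ : ℕ → Prop} {r r' : Cond S}
    (h : Can U l Ok z q m σ r) (hr : r' ≤ r) : Can U l Ok z q m σ r' := by
  induction m with
  | zero => exact hr.trans h
  | succ m ih => exact ⟨ih h.1, Inv.mono h.2.1 hr, fun h1 r1 h2 => h.2.2 h1 r1 (h2.trans hr)⟩

theorem can_congr {q : Cond S} {m : ℕ} {σ σ' : ℕ → Prop} (h : ∀ P < m, (σ P ↔ σ' P)) {r : Cond S}
    (hr : Can U l Ok z q m σ r) : Can U l Ok z q m σ' r := by
  induction m with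
  | zero => exact hr
  | succ m ih =>
    refine ⟨ih (fun P hP => h P (by omega)) hr.1, large_congr h hr.2.1, fun h1 r1 h2 h3 h4 => ?_⟩
    refine hr.2.2 ((h m (by omega)).2 h1) r1 h2 h3 (large_congr (fun P hP => ?_) h4)
    by_cases hP' : P = m
    · subst hP'; simp
    · rw [Function.update_of_ne hP', Function.update_of_ne hP']
      exact (h P hP).symm

theorem can_down {q : Cond S} {m m' : ℕ} (hm : m ≤ m') {σ : ℕ → Prop} {r : Cond S}
    (h : Can U l Ok z q m' σ r) : Can U l Ok z q m σ r := by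
  induction hm with
  | refl => exact h
  | step _ ih => exact ih h.1

theorem can_unique {q : Cond S} {m : ℕ} {σ σ' : ℕ → Prop} {r : Cond S} (hr : Lv l r)
    (h : Can U l Ok z q m σ r) (h' : Can U l Ok z q m σ' r) : ∀ P < m, (σ P ↔ σ' P) := by
  induction m with
  | zero => intro P hP; omega
  | succ m ih =>
    have h1 := ih h.1 h'.1
    have key : ∀ τ τ' : ℕ → Prop, (∀ P < m, (τ P ↔ τ' P)) → Can U l Ok z q (m + 1) τ r →
        Can U l Ok z q (m + 1) τ' r → τ m → τ' m := by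
      intro τ τ' h2 h3 h4 h5
      by_contra h6
      refine h3.2.2 h5 r le_rfl hr (large_congr (fun P hP => ?_) h4.2.1)
      by_cases hP' : P = m
      · subst hP'; simp [h6]
      · rw [Function.update_of_ne hP']
        exact (h2 P (by omega)).symm
    intro P hP
    rcases (Nat.lt_succ_iff.1 hP).eq_or_lt with rfl | hP'
    · exact ⟨key _ _ h1 h h', key _ _ (fun P hP => (h1 P hP).symm) h' h⟩
    · exact h1 P hP'

theorem can_dense (hO : ∀ k t t' r r', Ok k t r → t' ≤ t → r' ≤ r → Ok k t' r')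
    (hz : ∀ k, S.Adm l (z k)) {q : Cond S} (hq : Inv U l Ok q) (m : ℕ) (r : Cond S) (hr : r ≤ q)
    (hl : Lv l r) : ∃ r1 ≤ r, Lv l r1 ∧ ∃ σ, Can U l Ok z q m σ r1 ∧ Large U l Ok z m σ r1 := by
  induction m with
  | zero =>
    refine ⟨r, le_rfl, hl, fun _ => True, hr, fun r1 h1 h2 B hB t => ?_⟩
    obtain ⟨k, hk, r', h3, h4, h5⟩ := hq r1 (h1.trans hr) h2 B hB t
    exact ⟨k, hk, r', h3, h4, h5, fun _ _ P hP => absurd hP (by omega)⟩
  | succ m ih =>
    obtain ⟨r1, h1, h2, σ, h3, h4⟩ := ih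
    have hc : ∀ b : Prop, ∀ P < m, (σ P ↔ Function.update σ m b P) := fun b P hP => by
      rw [Function.update_of_ne hP.ne]
    by_cases h : ∃ r2 ≤ r1, Lv l r2 ∧ Large U l Ok z (m + 1) (Function.update σ m False) r2
    · obtain ⟨r2, h5, h6, h7⟩ := h
      exact ⟨r2, h5.trans h1, h6, _, ⟨can_congr (hc False) (can_mono h3 h5), h7, by simp⟩, h7⟩
    · have h5 : ¬ Large U l Ok z (m + 1) (Function.update σ m False) r1 :=
        fun h5 => h ⟨r1, le_rfl, h2, h5⟩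
      unfold Large Inv at h5
      push Not at h5
      obtain ⟨r2, h6, h7, B0, hB0, t0, h8⟩ := h5
      have h9 : Large U l Ok z (m + 1) (Function.update σ m True) r2 := by
        intro r3 h10 h11 B hB t
        obtain ⟨k, hk, r4, h12, h13, h14, h15⟩ := h4 r3 (h10.trans h6) h11 (B ∩ B0)
          (inter_mem hB hB0) (max t t0)
        obtain ⟨r5, h16, -, v, hv⟩ := adm_decide (hz k) r4 m
        have h17 : res l r5 ≤ r4 := res_le h13 h16
        have h18 : ∀ x ∈ (res l r5).1.ext, z k x m = v := res_prop hv fun x y hxy hx => by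
          rw [← (hz k).congr hxy]; exact hx
        have h19 : ∀ b : Prop, (v ≠ 0 ↔ b) → ∀ x ∈ (res l r5).1.ext, ∀ P < m + 1,
            (z k x P ≠ 0 ↔ Function.update σ m b P) := by
          intro b hb x hx P hP
          rcases (Nat.lt_succ_iff.1 hP).eq_or_lt with rfl | hP'
          · rw [h18 x hx, Function.update_self]; exact hb
          · exact (h15 x (h17 hx) P hP').trans (hc b P hP')
        refine ⟨k, hk.1, res l r5, h17.trans h12, res_lv _ _,
          hO _ _ _ _ _ h14 (le_max_left _ _) h17, h19 True ?_⟩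
        simp only [iff_true]
        intro hv0
        obtain ⟨x, hx, P, hP, h20⟩ := h8 k hk.2 (res l r5) (h17.trans (h12.trans h10)) (res_lv _ _)
          (hO _ _ _ _ _ h14 (le_max_right _ _) h17)
        have h21 := h19 False (by simp [hv0]) x hx P hP
        tauto
      refine ⟨r2, h6.trans h1, h7, _, ⟨can_congr (hc True) (can_mono h3 h6), h9,
        fun _ r3 h10 h11 h12 => h ⟨r3, h10.trans h6, h11, ?_⟩⟩, h9⟩
      simpa using h12

theorem koenig (hO : ∀ k t t' r r', Ok k t r → t' ≤ t → r' ≤ r → Ok k t' r')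
    (hz : ∀ k, S.Adm l (z k)) {q : Cond S} (hl : Lv l q) (hq : Inv U l Ok q) :
    ∃ Z, S.Adm l Z ∧ Inv U l
      (fun k t r => Ok k t r ∧ ∀ x ∈ r.1.ext, ∀ P < t, (z k x P ≠ 0 ↔ Z x P ≠ 0)) q := by
  obtain ⟨Z, hZ, h⟩ := capture_lv l (fun m v r => (∃ σ, Can U l Ok z q (m + 1) σ r ∧
      (v ≠ 0 ↔ σ m)) ∨ ∀ x ∈ r.1.ext, x ∉ q.1.ext) (by
    intro m p hp
    obtain ⟨r, hr, h | h⟩ := decide_ext p q
    · obtain ⟨r1, h1, h2, σ, h3, -⟩ := can_dense hO hz hq (m + 1) (res l r) (res_le hl h)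
        (res_lv _ _)
      refine ⟨r1, h1.trans (res_le hp hr), h2, ?_⟩
      by_cases h4 : σ m
      · exact ⟨1, Or.inl ⟨σ, h3, by simp [h4]⟩⟩
      · exact ⟨0, Or.inl ⟨σ, h3, by simp [h4]⟩⟩
    · exact ⟨res l r, res_le hp hr, res_lv _ _, 0, Or.inr (res_prop h fun x y hxy hx hy =>
        hx (lv_congr hl y x (fun j hj => (hxy j hj).symm) hy))⟩)
  refine ⟨Z, hZ, fun r hr hlr B hB t => ?_⟩
  obtain ⟨r1, h1, h2, σ, h3, h4⟩ := can_dense hO hz hq t r hr hlr
  have key : ∀ N ≤ t, ∃ r2 ≤ r1, Lv l r2 ∧ ∀ x ∈ r2.1.ext, ∀ P < N, (Z x P ≠ 0 ↔ σ P) := by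
    intro N hN
    induction N with
    | zero => exact ⟨r1, le_rfl, h2, fun _ _ P hP => absurd hP (by omega)⟩
    | succ N ih =>
      obtain ⟨r2, h5, h6, h7⟩ := ih (by omega)
      obtain ⟨r3, h8, h9, v, b, h10, h11, h12⟩ := h N r2 h6
      refine ⟨r3, h8.trans h5, h9, fun x hx P hP => ?_⟩
      rcases (Nat.lt_succ_iff.1 hP).eq_or_lt with rfl | hP'
      · rcases h10 with ⟨σ', h13, h14⟩ | h13
        · rw [h12 x hx, h14]
          exact can_unique h9 (can_mono h13 h11) (can_mono (can_down hN h3) (h8.trans h5)) P hP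
        · exact absurd (hr (h1 (h5 (h8 hx)))) (h13 x (h11 hx))
      · exact h7 x (h8 hx) P hP'
  obtain ⟨r2, h5, h6, h7⟩ := key t le_rfl
  obtain ⟨k, hk, r3, h8, h9, h10, h11⟩ := h4 r2 h5 h6 B hB t
  exact ⟨k, hk, r3, h8.trans (h5.trans h1), h9, h10, fun x hx P hP =>
    (h11 x hx P hP).trans (h7 x (h8 hx) P hP).symm⟩

end

/-- the promises of the sequence `p` at the coordinate `j` have a limit -/
def Root (U : Ultrafilter ℕ) (p : ℕ → Cond S) (j : J) : Prop :=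
  ∃ (n : ℕ) (f : ℕ → ℕ) (W : Set (L × (ℕ → Pt J → ℕ → ℕ))), W.Finite ∧
    (∀ w ∈ W, w.1 ≤ S.rk j ∧ ∀ k, S.Adm w.1 (w.2 k)) ∧
    (∀ᶠ k in U, (p k).1.n j = n ∧ ∀ i < n, (p k).1.f j i = f i) ∧
    ∀ Z : L × (ℕ → Pt J → ℕ → ℕ) → Pt J → ℕ → ℕ, (∀ w ∈ W, S.Adm w.1 (Z w)) →
      ∃ A, S.Prom j A ∧ ∀ v, ∃ t, ∀ᶠ k in U, ∀ x,
        (∀ w ∈ W, ∀ P < t, (w.2 k x P ≠ 0 ↔ Z w x P ≠ 0)) → v ∈ A x → v ∈ (p k).1.A j x

def Okay (p : ℕ → Cond S) (l : L) (W : Set (L × (ℕ → Pt J → ℕ → ℕ)))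
    (Z : L × (ℕ → Pt J → ℕ → ℕ) → Pt J → ℕ → ℕ) (k t : ℕ) (r : Cond S) : Prop :=
  (∀ x ∈ r.1.ext, ∀ j, S.rk j < l → (p k).1.At j x) ∧
    ∀ w ∈ W, ∀ x ∈ r.1.ext, ∀ P < t, (w.2 k x P ≠ 0 ↔ Z w x P ≠ 0)

theorem prepare (r : Cond S) (l : L) (D : Finset J) (hD : ∀ j ∈ D, S.rk j = l) (n : J → ℕ)
    (A : J → Pt J → Set ℕ) (hA : ∀ j ∈ D, S.Prom j (A j)) :
    ∃ r1 ≤ r, (∀ j ∈ D, n j ≤ r1.1.n j ∧ ∀ x ∈ r1.1.ext, (A j x).Nonempty) ∧
      ∀ i ∉ D, l ≤ S.rk i → r1.1.n i = r.1.n i := by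
  classical
  induction D using Finset.induction_on with
  | empty => exact ⟨r, le_rfl, by simp, fun _ _ _ => rfl⟩
  | insert j D hj ih =>
    obtain ⟨r1, h1, h2, h3⟩ := ih (fun i hi => hD i (Finset.mem_insert_of_mem hi))
      fun i hi => hA i (Finset.mem_insert_of_mem hi)
    have e := hD j (Finset.mem_insert_self _ _)
    obtain ⟨r2, h4, h5, v, hv⟩ := prom_sat (hA j (Finset.mem_insert_self _ _)) r1
    obtain ⟨r3, h6, h7, h8⟩ := longer r2 j (n j)
    refine ⟨r3, h6.trans (h4.trans h1), fun i hi => ?_, fun i hi hi' => ?_⟩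
    · rcases Finset.mem_insert.1 hi with rfl | hi'
      · exact ⟨h7, fun x hx => ⟨v, hv x (h6 hx)⟩⟩
      · have e' : S.rk j ≤ S.rk i := by rw [e, hD i hi]
        refine ⟨?_, fun x hx => (h2 i hi').2 x (h4 (h6 hx))⟩
        rw [h8 i (by rintro rfl; exact hj hi') e', (h5 i e').1]
        exact (h2 i hi').1
    · rw [Finset.mem_insert, not_or] at hi
      rw [h8 i hi.1 (e ▸ hi'), (h5 i (e ▸ hi')).1, h3 i hi.2 hi']

theorem limit_step [OrderBot L] (U : Ultrafilter ℕ) (p : ℕ → Cond S)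
    (hR : {j | ¬ ∀ᶠ k in U, j ∉ (p k).1.supp}.Finite)
    (hroot : ∀ j, (¬ ∀ᶠ k in U, j ∉ (p k).1.supp) → Root U p j) (l : L)
    (ih : ∀ l' < l, ∀ W : Set (L × (ℕ → Pt J → ℕ → ℕ)), W.Finite →
      (∀ w ∈ W, w.1 ≤ l' ∧ ∀ k, S.Adm w.1 (w.2 k)) →
      ∃ q Z, Lv l' q ∧ (∀ w ∈ W, S.Adm w.1 (Z w)) ∧ Inv U l' (Okay p l' W Z) q)
    (W : Set (L × (ℕ → Pt J → ℕ → ℕ))) (hW : W.Finite)
    (hW' : ∀ w ∈ W, w.1 < l ∧ ∀ k, S.Adm w.1 (w.2 k)) :
    ∃ q Z, Lv l q ∧ (∀ w ∈ W, S.Adm w.1 (Z w)) ∧ Inv U l (Okay p l W Z) q := by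
  classical
  rcases eq_bot_or_bot_lt l with rfl | hl
  · refine ⟨top, 0, fun j hj => absurd hj (top_supp j), fun w hw => absurd (hW' w hw).1 not_lt_bot,
      fun r _ hr B hB t => ?_⟩
    obtain ⟨k, hk⟩ := U.nonempty_of_mem hB
    exact ⟨k, hk, r, le_rfl, hr, fun _ _ _ h => absurd h not_lt_bot,
      fun w hw => absurd (hW' w hw).1 not_lt_bot⟩
  set R := {j | ¬ ∀ᶠ k in U, j ∉ (p k).1.supp} with hRdef
  obtain ⟨l', hl'mem, hl'⟩ := Set.exists_max_image
    (insert ⊥ (Prod.fst '' W ∪ S.rk '' {j ∈ R | S.rk j < l})) id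
    (((hW.image _).union ((hR.subset fun _ h => h.1).image _)).insert _) ⟨⊥, Or.inl rfl⟩
  have hlt : l' < l := by
    rcases hl'mem with rfl | ⟨w, hw, rfl⟩ | ⟨j, hj, rfl⟩
    · exact hl
    · exact (hW' w hw).1
    · exact hj.2
  have hRle : ∀ j ∈ R, S.rk j < l → S.rk j ≤ l' := fun j hj hj' =>
    hl' _ (Or.inr (Or.inr ⟨j, ⟨hj, hj'⟩, rfl⟩))
  choose! n f V hV1 hV2 hV3 hV4 using hroot
  let D : Finset J := hR.toFinset.filter fun j => S.rk j = l'
  have hD : ∀ j, j ∈ D ↔ j ∈ R ∧ S.rk j = l' := fun j => by simp [D]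
  obtain ⟨q', Z, hq1, hq2, hq3⟩ := ih l' hlt (W ∪ ⋃ j ∈ D, V j)
    (hW.union (D.finite_toSet.biUnion fun j hj => hV1 j ((hD j).1 hj).1)) (by
      rintro w (hw | hw)
      · exact ⟨hl' _ (Or.inr (Or.inl ⟨w, hw, rfl⟩)), (hW' w hw).2⟩
      · obtain ⟨j, hj, hw⟩ := Set.mem_iUnion₂.1 hw
        obtain ⟨h1, h2⟩ := (hD j).1 hj
        exact h2 ▸ hV2 j h1 w hw)
  have hA : ∀ j ∈ D, ∃ A, S.Prom j A ∧ ∀ v, ∃ t, ∀ᶠ k in U, ∀ x,
      (∀ w ∈ V j, ∀ P < t, (w.2 k x P ≠ 0 ↔ Z w x P ≠ 0)) → v ∈ A x → v ∈ (p k).1.A j x :=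
    fun j hj => hV4 j ((hD j).1 hj).1 Z fun w hw => hq2 w (Or.inr (Set.mem_biUnion hj hw))
  choose! A hA1 T hA2 using hA
  let q : Cond S := ⟨⟨fun j => if j ∈ D then n j else q'.1.n j,
      fun j => if j ∈ D then f j else q'.1.f j, fun j => if j ∈ D then A j else q'.1.A j⟩,
    (D.finite_toSet.union q'.2.1).subset fun j hj => by
      by_cases h : j ∈ D
      · exact Or.inl h
      · right; simpa [Raw.supp, h] using hj,
    fun j => by
      by_cases h : j ∈ D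
      · simpa [h] using hA1 j h
      · simpa [h] using q'.2.2 j⟩
  have hqq' : q ≤ q' := fun x hx => mem_lv hq1 fun j hj => by
    have h : j ∉ D := fun h => hj.ne ((hD j).1 h).2
    exact (At_of_eq (q := q.1) (by simp [q, h]) (by simp [q, h]) (by simp [q, h]) x).1 (hx j)
  have hqD : ∀ j ∈ D, ∀ x ∈ q.1.ext, (∀ m < n j, x j m = f j m) ∧
      ∀ m, n j ≤ m → (A j x).Nonempty → x j m ∈ A j x := fun j hj x hx => by
    simpa [q, Raw.At, hj] using hx j
  refine ⟨q, Z, fun j hj => ?_, fun w hw => hq2 w (Or.inl hw), fun r hr hlr B hB t => ?_⟩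
  · by_cases h : j ∈ D
    · rw [((hD j).1 h).2]; exact hlt
    · exact (hq1 j (by simpa [q, Raw.supp, h] using hj)).trans hlt
  obtain ⟨r1, h1, h2, -⟩ := prepare r l' D (fun j hj => ((hD j).1 hj).2) n A hA1
  have h3 : ∀ j ∈ D, ∀ m, n j ≤ m → m < r1.1.n j → ∀ x ∈ (res l' r1).1.ext,
      r1.1.f j m ∈ A j x := by
    intro j hj m hm hm'
    refine res_prop (fun x hx => ?_) fun x y hxy hx => ?_
    · rw [← (hx j).1 m hm']
      exact (hqD j hj x (hr (h1 hx))).2 m hm ((h2 j hj).2 x hx)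
    · rw [← prom_congr (hA1 j hj) (x := x) fun i hi => hxy i (((hD j).1 hj).2 ▸ hi)]
      exact hx
  have h4 : ∀ᶠ k in U, k ∈ B ∧ (∀ j ∈ D, (p k).1.n j = n j ∧ ∀ i < n j, (p k).1.f j i = f j i) ∧
      (∀ j ∈ D, ∀ m ∈ Finset.range (r1.1.n j), ∀ x,
        (∀ w ∈ V j, ∀ P < T j (r1.1.f j m), (w.2 k x P ≠ 0 ↔ Z w x P ≠ 0)) →
          r1.1.f j m ∈ A j x → r1.1.f j m ∈ (p k).1.A j x) ∧
      ∀ j ∈ r1.1.supp, j ∉ R → j ∉ (p k).1.supp := by
    refine Eventually.and hB (Eventually.and ?_ (Eventually.and ?_ ?_))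
    · exact (eventually_all_finset D).2 fun j hj => hV3 j ((hD j).1 hj).1
    · exact (eventually_all_finset D).2 fun j hj =>
        (eventually_all_finset _).2 fun m _ => hA2 j hj _
    · refine (eventually_all_finite r1.2.1).2 fun j _ => ?_
      by_cases h : j ∈ R
      · exact Eventually.of_forall fun _ h' => absurd h h'
      · exact (not_not.1 h).mono fun _ h' _ => h'
  let t' := max t (D.sup fun j => (Finset.range (r1.1.n j)).sup fun m => T j (r1.1.f j m))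
  obtain ⟨k, ⟨hk1, hk2, hk3, hk4⟩, r2, h5, h6, h7, h8⟩ := hq3 (res l' r1)
    (res_le hq1 (h1.trans (hr.trans hqq'))) (res_lv _ _) _ h4 t'
  let E : Finset J := (r1.2.1.union (p k).2.1).toFinset.filter fun j => l' ≤ S.rk j ∧ S.rk j < l
  have hE : ∀ j, j ∈ E ↔ (j ∈ r1.1.supp ∨ j ∈ (p k).1.supp) ∧ l' ≤ S.rk j ∧ S.rk j < l :=
    fun j => by simp [E]
  obtain ⟨r3, h9, h10, h11⟩ := amalg r2 r1 (p k) E
    (fun j hj i hi => (h6 i hi).trans_le ((hE j).1 hj).2.1) (by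
      intro j hj
      obtain ⟨-, h9, h10⟩ := (hE j).1 hj
      by_cases hjR : j ∈ R
      · have hjD : j ∈ D := (hD j).2 ⟨hjR, le_antisymm (hRle j hjR h10) h9⟩
        obtain ⟨e1, e2⟩ := hk2 j hjD
        right
        rw [e1]
        refine ⟨(h2 j hjD).1, fun m hm => ?_, fun m hm hm' x hx => ?_⟩
        · obtain ⟨x, hx⟩ := ext_nonempty r1
          rw [e2 m hm, ← (hx j).1 m (hm.trans_le (h2 j hjD).1)]
          exact (hqD j hjD x (hr (h1 hx))).1 m hm
        · refine hk3 j hjD m (Finset.mem_range.2 hm') x (fun w hw P hP => ?_)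
            (h3 j hjD m hm hm' x (h5 hx))
          refine h8 w (Or.inr (Set.mem_biUnion hjD hw)) x hx P (hP.trans_le ?_)
          refine le_trans ?_ (le_max_right _ _)
          exact le_trans (Finset.le_sup (f := fun m => T j (r1.1.f j m)) (Finset.mem_range.2 hm'))
            (Finset.le_sup (f := fun j => (Finset.range (r1.1.n j)).sup fun m => T j (r1.1.f j m))
              hjD)
      · by_cases hs : j ∈ r1.1.supp
        · right
          have h11 := hk4 j hs hjR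
          simp only [Raw.supp, Set.mem_ofPred_eq, not_or, not_not] at h11
          rw [h11.1, h11.2]
          exact ⟨Nat.zero_le _, fun m hm => absurd hm (by omega), fun _ _ _ _ _ => trivial⟩
        · exact Or.inl hs)
  have h12 : ∀ x ∈ r3.1.ext, ∀ j, S.rk j < l → r1.1.At j x ∧ (p k).1.At j x := by
    intro x hx j hj
    by_cases hj' : S.rk j < l'
    · exact ⟨mem_res.1 (h5 (h9 hx)) j hj', h7 x (h9 hx) j hj'⟩
    · by_cases hjE : j ∈ E
      · exact h10 x hx j hjE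
      · have h13 : ¬ (j ∈ r1.1.supp ∨ j ∈ (p k).1.supp) := fun h =>
          hjE ((hE j).2 ⟨h, not_lt.1 hj', hj⟩)
        rw [not_or] at h13
        exact ⟨At_of_not_supp h13.1 x, At_of_not_supp h13.2 x⟩
  refine ⟨k, hk1, r3, fun x hx => res_le hlr h1 (mem_res.2 fun j hj => (h12 x hx j hj).1),
    fun i hi => ?_, fun x hx j hj => (h12 x hx j hj).2, fun w hw x hx P hP =>
      h8 w (Or.inl hw) x (h9 hx) P (hP.trans_le (le_max_left _ _))⟩
  rcases h11 i hi with h13 | h13 | ⟨j, hj, h13⟩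
  · exact (h6 i h13).trans hlt
  · exact ((hE i).1 h13).2.2
  · exact h13.trans ((hE j).1 hj).2.2

theorem limit [OrderBot L] [WellFoundedLT L] (U : Ultrafilter ℕ) (p : ℕ → Cond S)
    (hR : {j | ¬ ∀ᶠ k in U, j ∉ (p k).1.supp}.Finite)
    (hroot : ∀ j, (¬ ∀ᶠ k in U, j ∉ (p k).1.supp) → Root U p j) (l : L) :
    ∀ W : Set (L × (ℕ → Pt J → ℕ → ℕ)), W.Finite →
      (∀ w ∈ W, w.1 ≤ l ∧ ∀ k, S.Adm w.1 (w.2 k)) →
      ∃ q Z, Lv l q ∧ (∀ w ∈ W, S.Adm w.1 (Z w)) ∧ Inv U l (Okay p l W Z) q := by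
  classical
  induction l using WellFoundedLT.induction with
  | ind l ih =>
    intro W hW hW'
    have key : ∀ E : Set (L × (ℕ → Pt J → ℕ → ℕ)), E.Finite →
        (∀ w ∈ E, w.1 = l ∧ ∀ k, S.Adm w.1 (w.2 k)) →
        ∃ q Z, Lv l q ∧ (∀ w ∈ E ∪ {w ∈ W | w.1 < l}, S.Adm w.1 (Z w)) ∧
          Inv U l (Okay p l (E ∪ {w ∈ W | w.1 < l}) Z) q := by
      intro E hE
      induction E, hE using Set.Finite.induction_on with
      | empty =>
        intro _
        rw [Set.empty_union]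
        exact limit_step U p hR hroot l ih _ (hW.subset fun _ h => h.1)
          fun w hw => ⟨hw.2, (hW' w hw.1).2⟩
      | @insert a E ha _ ih' =>
        intro hE
        obtain ⟨q, Z, h1, h2, h3⟩ := ih' fun w hw => hE w (Or.inr hw)
        obtain ⟨e, h4⟩ := hE a (Or.inl rfl)
        rw [e] at h4
        obtain ⟨Y, h5, h6⟩ := koenig (z := a.2) (fun k t t' r r' h ht hr =>
          ⟨fun x hx => h.1 x (hr hx), fun w hw x hx P hP => h.2 w hw x (hr hx) P (hP.trans_le ht)⟩)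
          h4 h1 h3
        refine ⟨q, Function.update Z a Y, h1, fun w hw => ?_, fun r hr hl B hB t => ?_⟩
        · by_cases h : w = a
          · subst h
            rw [Function.update_self, e]
            exact h5
          · rw [Function.update_of_ne h]
            rcases hw with (hw | hw) | hw
            · exact absurd hw h
            · exact h2 w (Or.inl hw)
            · exact h2 w (Or.inr hw)
        · obtain ⟨k, hk, r', h7, h8, h9, h10⟩ := h6 r hr hl B hB t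
          refine ⟨k, hk, r', h7, h8, h9.1, fun w hw => ?_⟩
          by_cases h : w = a
          · subst h
            rw [Function.update_self]
            exact h10
          · rw [Function.update_of_ne h]
            rcases hw with (hw | hw) | hw
            · exact absurd hw h
            · exact h9.2 w (Or.inl hw)
            · exact h9.2 w (Or.inr hw)
    have e : {w ∈ W | w.1 = l} ∪ {w ∈ W | w.1 < l} = W := by
      ext w
      constructor
      · rintro (h | h) <;> exact h.1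
      · intro h
        exact ((hW' w h).1.eq_or_lt).imp (fun h' => ⟨h, h'⟩) fun h' => ⟨h, h'⟩
    have := key {w ∈ W | w.1 = l} (hW.subset fun _ h => h.1) fun w hw => ⟨hw.2, (hW' w hw.1).2⟩
    rwa [e] at this

/-! ### Building a system by recursion on the rank -/

section

variable [WellFoundedLT L] (rk : J → L) (Sh : (L → Raw J → Prop) → J → (Pt J → Set ℕ) → Prop)

def PromF (G : L → Raw J → Prop) (j : J) (A : Pt J → Set ℕ) : Prop :=
  (A = fun _ => Set.univ) ∨ (Sh G j A ∧ ∀ A', Sh G j A' → Cert rk (G (rk j)) j A')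

noncomputable def Gd : L → Raw J → Prop :=
  WellFounded.fix wellFounded_lt fun l rec p => p.supp.Finite ∧ ∀ j ∈ p.supp, rk j < l ∧
    PromF rk Sh (fun l' p => ∃ h : l' < l, rec l' h p) j (p.A j)

theorem gd_eq (hloc : ∀ G G' j, (∀ l ≤ rk j, G l = G' l) → Sh G j = Sh G' j) :
    Gd rk Sh = GoodF rk (PromF rk Sh (Gd rk Sh)) := by
  funext l p
  unfold GoodF
  conv_lhs => rw [Gd, WellFounded.fix_eq]
  refine congrArg _ (forall_congr fun j => forall_congr fun _ => propext (and_congr_right fun hj => ?_))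
  have h1 : ∀ l' ≤ rk j, (fun l' p => ∃ _ : l' < l, Gd rk Sh l' p) l' = Gd rk Sh l' := by
    intro l' hl'
    funext p
    simp [hl'.trans_lt hj]
  change PromF rk Sh (fun l' p => ∃ _ : l' < l, Gd rk Sh l' p) j (p.A j) ↔ _
  unfold PromF
  rw [hloc _ _ j h1, h1 _ le_rfl]

noncomputable def build (hloc : ∀ G G' j, (∀ l ≤ rk j, G l = G' l) → Sh G j = Sh G' j)
    (hint : ∀ G j A A', Sh G j A → Sh G j A' → Sh G j fun x => A x ∩ A' x) : Sys J L where
  rk := rk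
  Prom := PromF rk Sh (Gd rk Sh)
  univ _ := Or.inl rfl
  inter j A A' h h' := by
    rcases h with rfl | h
    · simpa using h'
    rcases h' with rfl | h'
    · have h1 : PromF rk Sh (Gd rk Sh) j A := Or.inr h
      simpa using h1
    exact Or.inr ⟨hint _ _ _ _ h.1 h'.1, h.2⟩
  cert j A h := by
    rcases h with rfl | h
    · exact ⟨⟨∅, Set.countable_empty, by simp, fun _ _ _ => rfl⟩,
        fun v p hp => ⟨p, hp, subset_rfl, Or.inl fun _ _ => trivial⟩,
        fun p hp => ⟨p, hp, subset_rfl, 0, fun _ _ => trivial⟩⟩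
    · rw [← gd_eq rk Sh hloc]
      exact h.2 A h.1

end

end Pool.Agent.H669Z.Gam
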