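import Pool.Agent.H669Z.Gam.Inst
import Pool.Agent.H669Z.Gam.Ground

/-!
# What the iteration forces
-/

set_option autoImplicit false

namespace Pool.Agent.H669Z.Gam

open Pool.Agent.Helper292.ForceCH
open Pool.Agent.H669Z.Hech (Pt Dep down_isFun fex_of_mem meets_of_mem exists_of_meets fun_total
  fun_unique FLeStar)
open Filter Cardinal

def Dom (F : Pt JJ → ℕ → ℕ) (p : Cond SS) (i : Set Om) (n0 : ℕ) : Prop :=
  ∀ r ≤ p, ∀ n, n0 ≤ n → ∀ v w, (∀ x ∈ r.1.ext, F x n = v) → (∀ x ∈ r.1.ext, x (.d i) n = w) →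
    w ≤ v

theorem bad_countable {F : Pt JJ → ℕ → ℕ} (hF : SS.Adm ⊤ F) :
    {i | ∃ p n0, Dom F p i n0}.Countable := by
  classical
  by_contra hc
  have h0 : ∀ i : Set Om, ∃ p n0, (∃ p n0, Dom F p i n0) → Dom F p i n0 := by
    intro i
    by_cases h : ∃ p n0, Dom F p i n0
    · obtain ⟨p, n0, h⟩ := h
      exact ⟨p, n0, fun _ => h⟩
    · exact ⟨top, 0, fun h' => absurd h' h⟩
  choose p n0 hp using h0
  choose Fl N hF1 hF2 using exists_rep
  let code : Cond SS → JJ → ℕ := fun q j => Encodable.encode (q.1.n j, N q j,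
    (List.range (q.1.n j)).map (q.1.f j), (Fl q j).map fun w => en (bet j) w.1)
  let sz : Set Om → ℕ := fun i => n0 i + (p i).1.n (.d i) + (p i).2.1.toFinset.card +
    (p i).2.1.toFinset.sup (code (p i))
  obtain ⟨M, hM⟩ : ∃ M, {i | (∃ p n0, Dom F p i n0) ∧ sz i = M}.Infinite := by
    by_contra h
    push Not at h
    exact hc ((Set.countable_iUnion fun M => (h M).countable).mono fun i hi =>
      Set.mem_iUnion.2 ⟨sz i, And.intro hi rfl⟩)
  let ι : ℕ → Set Om := fun k => (hM.natEmbedding _ k).1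
  have hι : Function.Injective ι := Subtype.val_injective.comp (hM.natEmbedding _).injective
  have hι1 : ∀ k, Dom F (p (ι k)) (ι k) (n0 (ι k)) := fun k => hp _ (hM.natEmbedding _ k).2.1
  have hι2 : ∀ k, sz (ι k) = M := fun k => (hM.natEmbedding _ k).2.2
  choose q hq1 hq2 hq3 using fun k => cohen_ext (p (ι k)) (j := .d (ι k)) rfl (M + 1) k
  let U := hyperfilter ℕ
  have hne : ∀ j : JJ, ∀ᶠ k in (U : Filter ℕ), j ≠ JJ.d (ι k) := by
    intro j
    refine hyperfilter_le_cofinite (Set.Subsingleton.finite fun k hk k' hk' => hι ?_)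
    simp only [Set.mem_compl_iff, Set.mem_ofPred_eq, not_not] at hk hk'
    exact JJ.d.inj (hk.symm.trans hk')
  have hsupp : ∀ j, (¬ ∀ᶠ k in (U : Filter ℕ), j ∉ (q k).1.supp) →
      ∀ᶠ k in (U : Filter ℕ), j ∈ (p (ι k)).1.supp := by
    intro j hj
    rw [Ultrafilter.eventually_not, not_not] at hj
    filter_upwards [hj, hne j] with k h1 h2
    obtain ⟨e1, -, e3⟩ := hq3 k j h2
    simpa [Raw.supp, e1, e3] using h1
  obtain ⟨r0, Z, -, -, hinv⟩ := limit U q (by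
    by_contra hinf
    obtain ⟨E, hE, hcard⟩ := Set.Infinite.exists_subset_card_eq hinf (M + 1)
    obtain ⟨k, hk⟩ := ((eventually_all_finset E).2 fun j hj => hsupp j (hE hj)).exists
    have h1 : E.card ≤ (p (ι k)).2.1.toFinset.card :=
      Finset.card_le_card fun j hj => by simpa using hk j hj
    have h2 := hι2 k
    simp only [sz] at h2
    omega) (by
    intro j hj
    have h1 : ∀ᶠ k in (U : Filter ℕ), ∃ c ∈ Set.Iic M, code (p (ι k)) j = c := by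
      refine (hsupp j hj).mono fun k hk => ?_
      refine ⟨_, ?_, rfl⟩
      have h2 := hι2 k
      have h3 : code (p (ι k)) j ≤ (p (ι k)).2.1.toFinset.sup (code (p (ι k))) :=
        Finset.le_sup (by simpa using hk)
      simp only [sz] at h2
      simp only [Set.mem_Iic]
      omega
    obtain ⟨c, -, h2⟩ := (Ultrafilter.eventually_exists_mem_iff (Set.finite_Iic M)).1 h1
    obtain ⟨k0, hk0⟩ := h2.exists
    refine root_of U q j (fun k => Fl (p (ι k)) j) ((p (ι k0)).1.n j) (N (p (ι k0)) j)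
      ((List.range ((p (ι k0)).1.n j)).map ((p (ι k0)).1.f j))
      ((Fl (p (ι k0)) j).map fun w => en (bet j) w.1) (fun k => hF1 _ _) ?_
    filter_upwards [h2, hne j] with k h3 h4
    have h5 := Encodable.encode_injective (h3.trans hk0.symm)
    simp only [Prod.mk.injEq] at h5
    obtain ⟨e1, e2, e3⟩ := hq3 k j h4
    rw [e1, e2, e3, ← h5.2.1]
    exact ⟨h5.1, h5.2.2.1, h5.2.2.2, hF2 _ _⟩) ⊤ ∅ Set.finite_empty (by simp)
  obtain ⟨r, hr, -, v, hv⟩ := adm_decide hF r0 M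
  obtain ⟨k, hk, r', h1, -, h2, -⟩ := hinv r hr (lv_top _) (Set.Ioi v)
    (hyperfilter_le_cofinite (by simp)) 0
  have h3 : r' ≤ q k := fun x hx j => h2 x hx j (WithTop.coe_lt_top _)
  have h4 := hι2 k
  simp only [sz] at h4
  exact absurd (hι1 k r' (h3.trans (hq1 k)) M (by omega) v k (fun x hx => hv x (h1 hx))
    fun x hx => hq2 k x (h3 hx) M (by omega) (by omega)) (not_le.2 hk)

/-! ### Names -/

def nm {Y : Type} (G : Pt JJ → ℕ → Y) (m : ℕ) (v : Y) : Set (Cond SS) :=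
  {p | ∀ x ∈ p.1.ext, G x m = v}

theorem down_nm {Y : Type} (G : Pt JJ → ℕ → Y) (m : ℕ) (v : Y) : Down (nm G m v) :=
  fun _ hp _ hq x hx => hp x (hq hx)

theorem nm_isFun {Y : Type} {G : Pt JJ → ℕ → Y}
    (h : ∀ m (p : Cond SS), ∃ q ≤ p, ∀ x ∈ q.1.ext, ∀ y ∈ q.1.ext, G x m = G y m) (p : Cond SS) :
    p ∈ IsFun (nm G) := by
  refine ⟨fun m => mem_fex.2 fun q _ => ?_, fun m v v' => mem_fimp.2 ?_⟩
  · obtain ⟨r, hr, h1⟩ := h m q
    obtain ⟨y, hy⟩ := ext_nonempty r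
    exact ⟨r, hr, G y m, meets_of_mem fun x hx => h1 x hx y hy⟩
  · rintro q - ⟨h1, h2⟩
    obtain ⟨r, hr, h3⟩ := exists_of_meets (down_nm G m v) h1
    obtain ⟨t, ht, h4⟩ := exists_of_meets (down_nm G m v') (down_meets _ _ h2 r hr)
    obtain ⟨x, hx⟩ := ext_nonempty t
    exact ⟨q, le_rfl, (h3 x (ht hx)).symm.trans (h4 x hx)⟩

theorem gen_isFun {Y : Type} (φ : ℕ → Y) (j : JJ) (p : Cond SS) :
    p ∈ IsFun (nm fun x m => φ (x j m)) :=
  nm_isFun (fun m p => by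
    obtain ⟨q, hq, h⟩ := agree_many p {j} (Set.finite_singleton _) (m + 1)
    exact ⟨q, hq, fun x hx y hy => by rw [h x hx y hy j rfl m (Nat.lt_succ_self _)]⟩) p

theorem capture {Y : Type} (φ : ℕ → Y) (hφ : Function.Surjective φ)
    (f : ℕ → Y → Set (Cond SS)) (p : Cond SS) (hp : p ∈ IsFun f) :
    ∃ F, SS.Adm ⊤ F ∧ ∀ q ≤ p, ∀ m y, q ∈ meets (f m y) →
      ∃ r ≤ q, ∀ x ∈ r.1.ext, φ (F x m) = y := by
  obtain ⟨F, h1, h2⟩ := capture_lv (S := SS) ⊤ (fun m v q => q ∈ meets (f m (φ v)) ∨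
      ∀ x ∈ q.1.ext, x ∉ p.1.ext) (by
    intro m q _
    obtain ⟨r, hr, h | h⟩ := decide_ext q p
    · obtain ⟨t, ht, y, hy⟩ := fun_total (down_isFun f p hp r h) m
      obtain ⟨v, rfl⟩ := hφ y
      exact ⟨t, ht.trans hr, lv_top _, v, Or.inl hy⟩
    · exact ⟨r, hr, lv_top _, 0, Or.inr h⟩)
  refine ⟨F, h1, fun q hq m y hy => ?_⟩
  obtain ⟨r, hr, -, v, b, h3, h4, h5⟩ := h2 m q (lv_top _)
  refine ⟨r, hr, fun x hx => ?_⟩
  rw [h5 x hx]
  rcases h3 with h3 | h3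
  · exact fun_unique (down_isFun f p hp r (hr.trans hq)) (down_meets _ _ h3 r h4)
      (down_meets _ _ hy r hr)
  · exact absurd (hq (hr hx)) (h3 x (h4 hx))

theorem capture_set (C : ℕ → Set (Cond SS)) : ∃ F, SS.Adm ⊤ F ∧ ∀ m q, ∃ r ≤ q,
    (r ∈ meets (C m) ∧ ∀ x ∈ r.1.ext, F x m ≠ 0) ∨
      (r ∈ fnot (meets (C m)) ∧ ∀ x ∈ r.1.ext, F x m = 0) := by
  obtain ⟨F, h1, h2⟩ := capture_lv (S := SS) ⊤ (fun m v q => (v ≠ 0 ∧ q ∈ meets (C m)) ∨
      (v = 0 ∧ q ∈ fnot (meets (C m)))) (by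
    intro m q _
    by_cases h : ∃ r ≤ q, r ∈ meets (C m)
    · obtain ⟨r, hr, h⟩ := h
      exact ⟨r, hr, lv_top _, 1, Or.inl ⟨one_ne_zero, h⟩⟩
    · exact ⟨q, le_rfl, lv_top _, 0, Or.inr ⟨rfl, fun r hr h' => h ⟨r, hr, h'⟩⟩⟩)
  refine ⟨F, h1, fun m q => ?_⟩
  obtain ⟨r, hr, -, v, b, h3, h4, h5⟩ := h2 m q (lv_top _)
  refine ⟨r, hr, h3.imp (fun h => ⟨down_meets _ _ h.2 r h4, fun x hx => h5 x hx ▸ h.1⟩)
    fun h => ⟨down_fnot _ _ h.2 r h4, fun x hx => (h5 x hx).trans h.1⟩⟩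

theorem forces_notDom (p : Cond SS) : p ∈ FNotDom (Cond SS) Om := by
  refine fun f => fimp_of fun q _ hq => ?_
  choose F h1 h2 using fun a => capture id Function.surjective_id (f a) q (hq a)
  obtain ⟨i, hi⟩ : ∃ i, ∀ a, ¬ ∃ p n0, Dom (F a) p i n0 := by
    by_contra hc
    push Not at hc
    have h3 : (Set.univ : Set (Set Om)) ⊆ ⋃ a, {i | ∃ p n0, Dom (F a) p i n0} :=
      fun i _ => Set.mem_iUnion.2 (hc i)
    have h4 := (mk_le_mk_of_subset h3).trans (mk_iUnion_le _)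
    have h5 : ℵ₀ ≤ #Om := by simp
    have h6 : #Om * ⨆ a, #{i | ∃ p n0, Dom (F a) p i n0} ≤ #Om :=
      mul_le_of_le h5 le_rfl (ciSup_le' fun a =>
        (mk_le_aleph0_iff.2 (bad_countable (h1 a)).to_subtype).trans h5)
    rw [mk_univ, mk_set] at h4
    exact absurd (h4.trans h6) (not_le.2 (cantor _))
  refine fex_of_mem (nm fun x m => x (.d i) m)
    (down_fand (down_isFun _) (down_fall fun _ => down_fnot _)) ⟨gen_isFun id _ _, fun a r hr h => ?_⟩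
  obtain ⟨t, ht, n0, h3⟩ := mem_fex.1 h r le_rfl
  refine hi a ⟨t, n0, fun t1 ht1 n hn v w hv hw => ?_⟩
  obtain ⟨t2, ht2, v', hv'⟩ := fun_total (down_isFun _ q (hq a) t1 (ht1.trans (ht.trans hr))) n
  obtain ⟨t3, ht3, h4⟩ := h2 a t2 (ht2.trans (ht1.trans (ht.trans hr))) n v' hv'
  obtain ⟨x, hx⟩ := ext_nonempty t3
  obtain ⟨t4, -, h5⟩ := mem_fimp.1 (h3 n w v') t2 (ht2.trans ht1)
    ⟨hn, meets_of_mem fun y hy => hw y (ht2 hy), hv'⟩
  rw [← hv x (ht2 (ht3 hx))]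
  exact (show w ≤ v' from h5).trans (h4 x hx).ge

/-- the index set of the points -/
def II : Type := {w : Pnt // SS.Adm w.1 w.2}

noncomputable def aa (γ : Om) (x : Pt JJ) (n : ℕ) : ℕ := sInf {m | Ap γ x (Nat.pair n m)}

theorem aa_agree (γ : Om) (n : ℕ) (p : Cond SS) : ∃ q ≤ p, ∀ x ∈ q.1.ext,
    Ap γ x (Nat.pair n (aa γ x n)) ∧ ∀ y ∈ q.1.ext, aa γ x n = aa γ y n := by
  obtain ⟨q, hq, m, h1⟩ := ap_set p γ n
  obtain ⟨r, hr, h2⟩ := ap_agree q γ (Nat.pair n m + 1)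
  have h3 : ∀ x ∈ r.1.ext, Ap γ x (Nat.pair n (aa γ x n)) := fun x hx =>
    Nat.sInf_mem (s := {m | Ap γ x (Nat.pair n m)}) ⟨m, h1 x (hr hx)⟩
  have h4 : ∀ x ∈ r.1.ext, ∀ y ∈ r.1.ext, aa γ y n ≤ aa γ x n := fun x hx y hy => by
    refine Nat.sInf_le (h2 x hx y hy _ (Nat.lt_succ_of_le ?_) (h3 x hx))
    rcases (show aa γ x n ≤ m from Nat.sInf_le (h1 x (hr hx))).eq_or_lt with h | h
    · rw [h]
    · exact (Nat.pair_lt_pair_right n h).le
  exact ⟨r, hr.trans hq, fun x hx => ⟨h3 x hx, fun y hy => le_antisymm (h4 y hy x hx) (h4 x hx y hy)⟩⟩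

theorem fincl_iff (w : II) (v : ℕ) (q : Cond SS) : ∃ r ≤ q,
    ((∃ x ∈ r.1.ext, InCl (dec v) (pt w.1 x)) → r ∈ FInCl (dec v) (nm (pt w.1))) ∧
    (q ∈ FInCl (dec v) (nm (pt w.1)) → ∀ x ∈ r.1.ext, InCl (dec v) (pt w.1 x)) := by
  obtain ⟨r, hr, h⟩ := pt_agree q w.1 w.2 (tl v)
  have hl : ∀ s ∈ dec v, ∀ m : Fin s.length, m.1 < tl v := fun s hs m =>
    m.2.trans_le (List.le_sum_of_mem (List.mem_map_of_mem hs))
  refine ⟨r, hr, ?_, fun h1 x hx => ?_⟩
  · rintro ⟨x, hx, s, hs, h1⟩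
    exact fex_of_mem s (down_fand (fun _ h _ _ => h) (down_fall fun _ => down_meets _))
      ⟨hs, fun m => meets_of_mem fun y hy => (h y hy x hx m (hl s hs m)).trans (h1 m)⟩
  · obtain ⟨t, ht, s, hs, h2⟩ := mem_fex.1 h1 r hr
    refine ⟨s, hs, fun m => ?_⟩
    obtain ⟨t', ht', h3⟩ := exists_of_meets (down_nm _ _ _) (h2 m)
    obtain ⟨y, hy⟩ := ext_nonempty t'
    rw [h x hx y (ht (ht' hy)) m (hl s hs m)]
    exact h3 y hy

theorem down_FInCl {P : Type} [Preorder P] (c : List (List Bool)) (y : ℕ → Bool → Set P) :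
    Down (FInCl c y) := down_fex _

theorem forces_onto (w : ℕ → Bool → Set (Cond SS)) (q : Cond SS) (hq : q ∈ IsFun w) :
    q ∈ fex fun γ : Om => fex fun i : II => fall fun n => fall fun k => fall fun b =>
      fimp (fand (meets (nm (aa γ) n k)) (meets (w n b)))
        (meets (nm (pt i.1) (Nat.pair n k) b)) := by
  obtain ⟨F, h1, h2⟩ := capture (fun v : ℕ => decide (v ≠ 0))
    (fun b => by cases b; exacts [⟨0, rfl⟩, ⟨1, rfl⟩]) w q hq
  obtain ⟨γ, hγ⟩ := adm_lower h1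
  have h3 : SS.Adm γ fun x P => F x P.unpair.1 := by
    obtain ⟨T, a1, a2, a3⟩ := hγ.1
    refine adm_of_lv a1 a2 (fun x y h => by rw [a3 x y h]) fun m p _ => ?_
    obtain ⟨r, hr, -, h⟩ := adm_decide hγ p m.unpair.1
    exact ⟨r, hr, h⟩
  refine fex_of_mem γ (down_fex _) (fex_of_mem ⟨(γ, _), h3⟩
    (down_fall fun _ => down_fall fun _ => down_fall fun _ => down_fimp _ _)
    fun n k b => mem_fimp.2 ?_)
  rintro r hr ⟨h4, h5⟩
  obtain ⟨r1, hr1, h6⟩ := h2 r hr n b h5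
  obtain ⟨r2, hr2, h7⟩ := exists_of_meets (down_nm _ _ _) (down_meets _ _ h4 r1 hr1)
  obtain ⟨r3, hr3, h8⟩ := aa_agree γ n r2
  refine ⟨r3, hr3.trans (hr2.trans hr1), meets_of_mem fun x hx => ?_⟩
  have h9 := (h8 x hx).1
  rw [h7 x (hr3 hx)] at h9
  rw [← h6 x (hr2 (hr3 hx))]
  simp [pt, h9]

theorem forces_gamma (C : List (List Bool) → Set (Cond SS)) (q : Cond SS)
    (hq : q ∈ fall fun F : List II => fex fun c => fand (meets (C c))
      (fall fun i => fimp (fground (i ∈ F)) (FInCl c (nm (pt i.1))))) :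
    q ∈ fex fun g : ℕ → List (List Bool) → Set (Cond SS) => fand (IsFun g)
      (fall fun i : II => fex fun m => fall fun t => fall fun c =>
        fimp (fand (fground (m ≤ t)) (meets (g t c)))
          (fand (meets (C c)) (FInCl c (nm (pt i.1))))) := by
  classical
  obtain ⟨u0, h1, h2⟩ := capture_set fun v => C (dec v)
  obtain ⟨β1, h3⟩ := adm_lower h1
  obtain ⟨β2, h4⟩ := exists_level q.1.supp q.2.1.countable
  let β := max β1 β2
  have h5 : SS.Adm β u0 := h3.mono (WithTop.coe_le_coe.2 (le_max_left _ _))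
  have h6 : Lv (β : WithTop Om) q := fun j hj => rk_lt.2 ((h4 j hj).trans_le (le_max_right _ _))
  have h7 : SS.Adm β fun x v => if x ∈ q.1.ext then u0 x v else 1 := by
    obtain ⟨T, a1, a2, a3⟩ := h5.1
    obtain ⟨T', b1, b2, b3⟩ := exists_dep q h6
    refine adm_of_lv (a1.union b1) (fun j hj => hj.elim (a2 j) (b2 j)) (fun x y h => ?_)
      fun m p _ => ?_
    · have : x ∈ q.1.ext ↔ y ∈ q.1.ext := ⟨b3 x y fun j hj => h j (Or.inr hj),
        b3 y x fun j hj => (h j (Or.inr hj)).symm⟩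
      simp only [this, a3 x y fun j hj => h j (Or.inl hj)]
    · obtain ⟨r, hr, h | h⟩ := decide_ext p q
      · obtain ⟨t, ht, -, k, hk⟩ := adm_decide h5 r m
        exact ⟨t, ht.trans hr, k, fun x hx => by rw [if_pos (h (ht hx)), hk x hx]⟩
      · exact ⟨r, hr, 1, fun x hx => if_neg (h x hx)⟩
  obtain ⟨j, e1, e2, e3⟩ := exists_node h7
  have hC : Cer j := by
    refine cer_of (e1 ▸ e2) (by rw [e1, e3]; exact h7) fun F hF p _ => ?_
    simp only [e3]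
    obtain ⟨r, hr, h | h⟩ := decide_ext p q
    · obtain ⟨t, ht, c, a1, a2⟩ := mem_fex.1 (hq (F.pmap Subtype.mk fun w hw => (hF w hw).2)) r h
      obtain ⟨v, rfl⟩ : ∃ v, dec v = c := ⟨_, dec_encode c⟩
      have key : ∀ G : List II, (∀ i ∈ G, ∀ t1 ≤ t, ∃ t2 ≤ t1,
          t2 ∈ FInCl (dec v) (nm (pt i.1))) →
          ∃ t' ≤ t, ∀ i ∈ G, ∀ x ∈ t'.1.ext, InCl (dec v) (pt i.1 x) := by
        intro G hG
        induction G with
        | nil => exact ⟨t, le_rfl, by simp⟩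
        | cons i G ih =>
          obtain ⟨t1, b1, b2⟩ := ih fun i hi => hG i (List.mem_cons_of_mem _ hi)
          obtain ⟨t2, b3, b4⟩ := hG i List.mem_cons_self t1 b1
          obtain ⟨t3, b5, -, b6⟩ := fincl_iff i v t2
          refine ⟨t3, b5.trans (b3.trans b1), fun i' hi' => ?_⟩
          rcases List.mem_cons.1 hi' with rfl | hi'
          · exact b6 b4
          · exact fun x hx => b2 i' hi' x (b3 (b5 hx))
      obtain ⟨t1, b1, b2⟩ := key _ fun i hi t1 b1 => mem_fimp.1 (a2 i) t1 b1 hi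
      obtain ⟨t2, b3, b4 | b4⟩ := h2 v t1
      · refine ⟨t2, b3.trans (b1.trans (ht.trans hr)), v, fun x hx => ⟨?_, fun w hw => ?_⟩⟩
        · rw [if_pos (h (ht (b1 (b3 hx))))]
          exact b4.2 x hx
        · exact b2 ⟨w, (hF w hw).2⟩ (List.mem_pmap.2 ⟨w, hw, rfl⟩) x (b3 hx)
      · exact absurd (down_meets _ _ a1 t2 (b3.trans b1)) (b4.1 t2 le_rfl)
    · refine ⟨r, hr, Encodable.encode ([[]] : List (List Bool)), fun x hx => ⟨?_, fun w _ => ?_⟩⟩
      · rw [if_neg (h x hx)]; exact one_ne_zero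
      · rw [dec_encode]
        exact ⟨[], by simp, fun m => m.elim0⟩
  refine fex_of_mem (nm fun x t => dec (x j t)) (down_fand (down_isFun _)
    (down_fall fun _ => down_fex _)) ⟨gen_isFun dec j q, fun i => mem_fex.2 fun r hr => ?_⟩
  obtain ⟨F, N, a1, a2⟩ : ∃ F N, Pts (bet j) F ∧ ∀ x v, v ∈ AA j F N x →
      InCl (dec v) (pt i.1 x) := by
    by_cases h : i.1.1 ≤ bet j
    · exact ⟨[i.1], 0, by simpa [Pts] using ⟨h, i.2⟩, fun x v hv => hv.2.1 _ (by simp)⟩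
    · refine ⟨[], en i.1.1 (bet j), by simp [Pts], fun x v hv => hv.2.2 _ fun P hP => ?_⟩
      simp only [pt, decide_eq_true_eq] at hP
      exact (lt_or_ge P _).imp id (hP.2 _ (not_le.1 h))
  obtain ⟨r1, b1, b2⟩ := promise r j (prom_iff.2 (Or.inr ⟨hC, F, N, a1, rfl⟩))
  refine ⟨r1, b1, r.1.n j, fun t c => mem_fimp.2 ?_⟩
  rintro r2 b3 ⟨b4, b5⟩
  obtain ⟨r3, b6, b7⟩ := exists_of_meets (down_nm _ _ _) b5
  obtain ⟨r4, b8, b9, -⟩ := longer r3 j (t + 1)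
  have b10 : ∀ x ∈ r4.1.ext, x j t = r4.1.f j t := fun x hx => (hx j).1 t (by omega)
  obtain ⟨r5, b11, b12⟩ := h2 (r4.1.f j t) r4
  obtain ⟨r6, b13, b14, -⟩ := fincl_iff i (r4.1.f j t) r5
  obtain ⟨x, hx⟩ := ext_nonempty r6
  have hx4 := b11 (b13 hx)
  have b15 := b2 x (b3 (b6 (b8 hx4))) t b4
  have b16 : dec (r4.1.f j t) = c := by rw [← b10 x hx4]; exact b7 x (b8 hx4)
  rw [b10 x hx4] at b15
  rw [← b16]
  refine ⟨r6, b13.trans (b11.trans (b8.trans b6)), ?_, b14 ⟨x, hx, a2 x _ b15⟩⟩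
  rcases b12 with b12 | b12
  · exact down_meets _ _ b12.1 r6 b13
  · have := b15.1
    rw [e3] at this
    simp only [hr (b1 (b3 (b6 (b8 hx4)))), if_true] at this
    exact absurd (b12.2 x (b13 hx)) this

theorem forces_wit (p : Cond SS) : p ∈ FWit (Cond SS) Om II := by
  refine fex_of_mem (fun γ => nm (aa γ)) (down_fex _) (fex_of_mem (fun i => nm (pt i.1))
    (down_fand (down_fand (down_fall fun _ => down_isFun _) (down_fall fun _ => down_isFun _))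
      (down_fand (down_fall fun _ => down_fimp _ _) (down_fall fun _ => down_fimp _ _)))
    ⟨⟨fun γ => nm_isFun (fun m p => ?_) p, fun i => nm_isFun (fun m p => ?_) p⟩,
      fun w => fimp_of fun q _ hq => forces_onto w q hq,
      fun C => fimp_of fun q _ hq => forces_gamma C q hq⟩)
  · obtain ⟨q, hq, h⟩ := aa_agree γ m p
    exact ⟨q, hq, fun x hx => (h x hx).2⟩
  · obtain ⟨q, hq, h⟩ := pt_agree p i.1 i.2 (m + 1)
    exact ⟨q, hq, fun x hx y hy => h x hx y hy m (Nat.lt_succ_self _)⟩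

theorem exists_forcing : ∃ (P : Type) (_ : Preorder P) (O I : Type), Nonempty P ∧
    ∀ p : P, p ∈ FNotDom P O ∧ p ∈ FWit P O I :=
  ⟨Cond SS, inferInstance, Om, II, ⟨top⟩, fun p => ⟨forces_notDom p, forces_wit p⟩⟩

end Pool.Agent.H669Z.Gam
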